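import Mathlib.Computability.TuringMachine.Computable

/-!
Polynomial-time computability, the classes `NP` and `coNP`, and hardness, on top of Mathlib's
Turing machines (`Turing.FinTM2`, `Turing.TM2ComputableInPolyTime`).
-/

namespace Pool.Agent.Work.TMLib

open Turing

/-- The function `f : α → β` is computable in polynomial time with respect to the string
encodings `ea` and `eb`: Mathlib's `TM2ComputableInPolyTime` holds for some machine all of whose
stack alphabets are finite. -/
def PolyTime {α β Γ₁ Γ₂ : Type} (ea : α → List Γ₁) (eb : β → List Γ₂) (f : α → β) : Prop :=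
  ∃ h : TM2ComputableInPolyTime ea eb f, ∀ k, Finite (h.tm.Γ k)

/-- The encoding of a pair of bit strings `(w, u)`: the bits of `w`, each tagged `inl`, followed by
the bits of `u`, each tagged `inr`. -/
def encPair (x : List Bool × List Bool) : List (Bool ⊕ Bool) :=
  x.1.map Sum.inl ++ x.2.map Sum.inr

/-- The language `L` is in `NP`: there are a polynomial `p` and a polynomial-time decidable
relation `R` such that `w ∈ L` if and only if some certificate `u` of length at most `p |w|` has
`R (w, u)`. -/
def InNP (L : Set (List Bool)) : Prop :=
  ∃ (p : Polynomial ℕ) (R : List Bool × List Bool → Bool),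
    PolyTime encPair (fun b : Bool => [b]) R ∧
    ∀ w, w ∈ L ↔ ∃ u : List Bool, u.length ≤ p.eval w.length ∧ R (w, u) = true

/-- The language `L` is in `coNP`: its complement is in `NP`. -/
def InCoNP (L : Set (List Bool)) : Prop := InNP Lᶜ

/-- The decision problem with instances `β`, string encoding `eb : β → List Γ` and set `Y` of
yes-instances, restricted to the instances in `P`, is hard for `coNP` under polynomial-time
many-one reductions. -/
def CoNPHard {β Γ : Type} (eb : β → List Γ) (P Y : Set β) : Prop :=
  ∀ L : Set (List Bool), InCoNP L →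
    ∃ f : List Bool → β, PolyTime id eb f ∧ ∀ w, f w ∈ P ∧ (w ∈ L ↔ f w ∈ Y)

/-- The same for `NP`. -/
def NPHard {β Γ : Type} (eb : β → List Γ) (P Y : Set β) : Prop :=
  ∀ L : Set (List Bool), InNP L →
    ∃ f : List Bool → β, PolyTime id eb f ∧ ∀ w, f w ∈ P ∧ (w ∈ L ↔ f w ∈ Y)

end Pool.Agent.Work.TMLib
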