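import Pool.Agent.Work.TMLib.Lib
import Pool.Agent.Work.TMLib.Classes
import Mathlib.Tactic

/-!
From polynomial-time functions on trees to Mathlib's `TM2ComputableInPolyTime`.
-/

namespace Pool.Agent.Work.TMLib

set_option linter.constructorNameAsVariable false

open Turing Polynomial

instance (N : ℕ) : DE (Fin N) := ⟨fun i => de i.val⟩

@[simp] theorem de_fin {N : ℕ} (i : Fin N) : de i = de i.val := rfl
@[simp] theorem sz_fin {N : ℕ} (i : Fin N) : sz i = 2 * i.val + 1 := sz_nat _

variable {A B : Type} {N M : ℕ}

/-- Labels for the input conversion. -/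
inductive LIn (N : ℕ) | s | l | wr (i : Fin N)

instance (N : ℕ) : Fintype (LIn N) :=
  Fintype.ofEquiv (Bool ⊕ Fin N)
    { toFun := fun x => match x with
        | .inl false => .s
        | .inl true => .l
        | .inr i => .wr i
      invFun := fun x => match x with
        | .s => .inl false
        | .l => .inl true
        | .wr i => .inr i
      left_inv := by rintro ((_|_)|i) <;> rfl
      right_inv := by rintro (_|_|i) <;> rfl }

/-- Is the register an input symbol? -/
def isI : Reg A → Bool
  | some (.inr _) => true
  | _ => false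

@[simp] theorem isI_inr (x : A) : isI (some (.inr x) : Reg A) = true := rfl
@[simp] theorem isI_none : isI (none : Reg A) = false := rfl

/-- The label for writing the code of the input symbol in the register. -/
def wrL (eA : A ≃ Fin N) : Reg A → LIn N
  | some (.inr x) => .wr (eA x)
  | _ => .l

@[simp] theorem wrL_inr (eA : A ≃ Fin N) (x : A) : wrL eA (some (.inr x)) = .wr (eA x) := rfl

open TM2.Stmt in
/-- Write the tree of the input on `a`, reversed, above a marker. -/
def cIn (B : Type) (eA : A ≃ Fin N) : Code A B where
  L := LIn N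
  fin := inferInstance
  entry := .s
  m
  | .s => push .a (fun _ => Sy.h) <| goto fun _ => some .l
  | .l => pop .inp (fun _ o => o.map Sum.inr) <| branch isI
    (push .a (fun _ => Sy.c) <| goto fun v => some (wrL eA v))
    (push .a (fun _ => Sy.n) <| load (fun _ => none) <| goto fun _ => none)
  | .wr ⟨0, _⟩ => push .a (fun _ => Sy.n) <| load (fun _ => none) <| goto fun _ => some .l
  | .wr ⟨i + 1, h⟩ => push .a (fun _ => Sy.c) <| push .a (fun _ => Sy.n) <|
      goto fun _ => some (.wr ⟨i, by omega⟩)

theorem cIn_wr {eA : A ≃ Fin N} {L' : Type} {M' : L' → Stm A B L'} {e : LIn N → L'} {x : L'}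
    (hE : Emb (cIn B eA) M' e x) (i : ℕ) (hi : i < N) (v : Reg A)
    (s : SS A B) (a0 : List Sy) :
    RN M' (i + 1)
      ⟨some (e (.wr ⟨i, hi⟩)), v, ({s with a := a0} : SS A B).fn⟩
      ⟨some (e .l), none, ({s with a := (de i).enc.reverse ++ a0} : SS A B).fn⟩ := by
  induction i generalizing a0 with
  | zero =>
    apply RN.single
    simp only [TM2.step.eq_2, hE (LIn.wr ⟨0, hi⟩)]
    simp [cIn]
  | succ i ih =>
    refine RN.step ?_ (by
      simpa using ih (by omega) (Sy.n :: Sy.c :: a0))
    simp only [TM2.step.eq_2, hE (LIn.wr ⟨i+1, hi⟩)]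
    simp [cIn]

theorem cIn_loop {eA : A ≃ Fin N} {L' : Type} {M' : L' → Stm A B L'} {e : LIn N → L'} {x : L'}
    (hE : Emb (cIn B eA) M' e x) (w : List A)
    (s : SS A B) (a0 : List Sy) :
    ∃ t ≤ w.length * (N + 1) + 1, RN M' t
      ⟨some (e .l), none, ({s with inp := w, a := a0} : SS A B).fn⟩
      ⟨some x, none, ({s with inp := [], a := (de (w.map eA)).enc.reverse ++ a0} : SS A B).fn⟩ := by
  induction w generalizing a0 with
  | nil =>
    refine ⟨1, by simp, ?_⟩
    apply RN.single
    simp only [TM2.step.eq_2, hE LIn.l]
    simp [cIn]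
  | cons y w ih =>
    obtain ⟨t, ht, hr⟩ := ih ((de (eA y).val).enc.reverse ++ Sy.c :: a0)
    have h1 := cIn_wr hE (eA y).val (eA y).isLt (some (.inr y)) {s with inp := w} (Sy.c :: a0)
    refine ⟨(eA y).val + 1 + t + 1, ?_, ?_⟩
    · have := (eA y).isLt
      simp only [List.length_cons]
      rw [Nat.succ_mul]
      omega
    · refine RN.step ?_ (h1.trans ?_)
      · simp only [TM2.step.eq_2, hE LIn.l]
        simp [cIn]
      · simpa using hr

theorem Does.cIn (eA : A ≃ Fin N) (s : SS A B) (w : List A) :
    Does (cIn B eA) (w.length * (N + 1) + 2) {s with inp := w}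
      {s with inp := [], a := (de (w.map eA)).enc.reverse ++ Sy.h :: s.a} := by
  intro L' M' e y hE
  obtain ⟨t, ht, hr⟩ := cIn_loop hE w s (Sy.h :: s.a)
  refine ⟨t + 1, by omega, RN.step ?_ hr⟩
  simp only [TM2.step.eq_2]
  erw [hE LIn.s]
  simp [TMLib.cIn]

/-- Labels for the output conversion. -/
inductive LOut (M : ℕ) | l | rd (i : Fin M) | bad

instance (N : ℕ) : Fintype (LOut N) :=
  Fintype.ofEquiv (Bool ⊕ Fin N)
    { toFun := fun x => match x with
        | .inl false => .l
        | .inl true => .bad
        | .inr i => .rd i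
      invFun := fun x => match x with
        | .l => .inl false
        | .bad => .inl true
        | .rd i => .inr i
      left_inv := by rintro ((_|_)|i) <;> rfl
      right_inv := by rintro (_|_|i) <;> rfl }

open TM2.Stmt in
/-- Write the (reversed) list of output symbols coded by the tree on `m`. -/
def cOut (A : Type) (eB : B ≃ Fin M) : Code A B where
  L := LOut M
  fin := inferInstance
  entry := .l
  m
  | .l => pop .m (fun _ o => o.map Sum.inl) <| branch isC
    (load (fun _ => none) <| goto fun _ => some (if h : 0 < M then .rd ⟨0, h⟩ else .bad))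
    (load (fun _ => none) <| goto fun _ => none)
  | .rd i => pop .m (fun _ o => o.map Sum.inl) <| branch isC
      (pop .m (fun _ o => o.map Sum.inl) <| load (fun _ => none) <|
        goto fun _ => some (if h : i.val + 1 < M then .rd ⟨i.val + 1, h⟩ else .bad))
      (push .out (fun _ => eB.symm i) <| load (fun _ => none) <| goto fun _ => some .l)
  | .bad => goto fun _ => none

theorem cOut_rd {eB : B ≃ Fin M} {L' : Type} {M' : L' → Stm A B L'} {e : LOut M → L'} {x : L'}
    (hE : Emb (cOut A eB) M' e x) (j i : ℕ) (hi : i + j < M)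
    (s : SS A B) (r : List Sy) (o : List B) :
    RN M' (j + 1)
      ⟨some (e (.rd ⟨i, by omega⟩)), none, ({s with m := (de j).enc ++ r, out := o} : SS A B).fn⟩
      ⟨some (e .l), none, ({s with m := r, out := eB.symm ⟨i + j, hi⟩ :: o} : SS A B).fn⟩ := by
  induction j generalizing i with
  | zero =>
    apply RN.single
    simp only [TM2.step.eq_2, hE (LOut.rd ⟨i, _⟩)]
    simp [cOut]
  | succ j ih =>
    refine RN.step ?_ (by
      have := ih (i + 1) (by omega)
      simpa [show i + 1 + j = i + (j + 1) by omega] using this)
    simp only [TM2.step.eq_2, hE (LOut.rd ⟨i, _⟩)]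
    simp [cOut, show i + 1 < M by omega]

theorem cOut_loop {eB : B ≃ Fin M} {L' : Type} {M' : L' → Stm A B L'} {e : LOut M → L'} {x : L'}
    (hE : Emb (cOut A eB) M' e x) (w : List (Fin M))
    (s : SS A B) (r : List Sy) (o : List B) :
    ∃ t ≤ w.length * (M + 1) + 1, RN M' t
      ⟨some (e .l), none, ({s with m := (de w).enc ++ r, out := o} : SS A B).fn⟩
      ⟨some x, none, ({s with m := r, out := (w.map eB.symm).reverse ++ o} : SS A B).fn⟩ := by
  induction w generalizing o with
  | nil =>
    refine ⟨1, by simp, ?_⟩
    apply RN.single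
    simp only [TM2.step.eq_2, hE LOut.l]
    simp [cOut]
  | cons y w ih =>
    obtain ⟨t, ht, hr⟩ := ih (eB.symm y :: o)
    have hy := y.isLt
    have h1 := cOut_rd hE y.val 0 (by omega) s ((de w).enc ++ r) o
    simp only [Nat.zero_add, Fin.eta] at h1
    refine ⟨y.val + 1 + t + 1, ?_, ?_⟩
    · simp only [List.length_cons]
      rw [Nat.succ_mul]
      omega
    · refine RN.step ?_ (h1.trans ?_)
      · simp only [TM2.step.eq_2, hE LOut.l]
        simp [cOut, show 0 < M by omega]
      · simpa using hr

theorem Does.cOut (eB : B ≃ Fin M) (s : SS A B) (w : List (Fin M)) (r : List Sy) :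
    Does (cOut A eB) (w.length * (M + 1) + 1) {s with m := (de w).enc ++ r}
      {s with m := r, out := (w.map eB.symm).reverse ++ s.out} := by
  intro L' M' e y hE
  exact cOut_loop hE w s r s.out

/-- The labels of the complete machine: those of the fragment and a halting label. -/
def total (c : Code A B) : Option c.L → Stm A B (Option c.L)
  | some l => c.m l
  | none => .halt

theorem emb_total (c : Code A B) : Emb c (total c) some none := by
  intro l
  show c.m l = _
  have : ∀ q : Stm A B (Option c.L), q = mapL (fun o => Option.elim o none some) q := by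
    intro q
    induction q with
    | push k f q ih => simp [← ih]
    | peek k f q ih => simp [← ih]
    | pop k f q ih => simp [← ih]
    | load f q ih => simp [← ih]
    | branch f q₁ q₂ ih₁ ih₂ => simp [← ih₁, ← ih₂]
    | goto f => 
      simp only [mapL_goto]
      congr
      funext v
      cases f v <;> rfl
    | halt => simp
  exact this _

/-- The complete machine. -/
def theTM [Fintype A] (c : Code A B) : FinTM2 where
  K := Stk
  k₀ := .inp
  k₁ := .out
  Γ := Gam A B
  Λ := Option c.L
  main := some c.entry
  ΛFin := by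
    haveI := c.fin
    infer_instance
  σ := Reg A
  initialState := none
  Γk₀Fin := inferInstanceAs (Fintype A)
  m := total c

theorem RN.iterate {L : Type} {M' : L → Stm A B L} {n : ℕ} {c c'} (h : RN M' n c c') :
    (flip bind (TM2.step M'))^[n] (some c) = some c' := by
  induction h with
  | refl => rfl
  | step hs _ ih =>
    rw [Function.iterate_succ_apply]
    simp only [flip, Option.bind_eq_bind, Option.bind_some, hs]
    exact ih

theorem PolyTime.of_PolyF {α β : Type} [Fintype A] [Fintype B] {ea : α → List A}
    {eb : β → List B} {f : α → β} (eA : A ≃ Fin N) (eB : B ≃ Fin M)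
    {g : List (Fin N) → List (Fin M)} (hg : PolyF g)
    (h : ∀ a, g ((ea a).map eA) = (eb (f a)).map eB) : PolyTime ea eb f := by
  have hg' : PolyF (fun w => (g w).reverse) := by fun_prop
  obtain ⟨⟨q, hq⟩, cg⟩ := hg'.toG
  obtain ⟨c, p, hc⟩ := cg A B
  set C := (cIn B eA).seq (uA.seq (c.seq (cOut A eB))) with hC
  have hsz : ∀ w : List A, sz (w.map eA) ≤ w.length * (2 * N + 2) + 1 := by
    intro w
    induction w with
    | nil => simp
    | cons y w ih =>
      have := (eA y).isLt
      simp only [List.map_cons, sz_cons, sz_fin, List.length_cons]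
      have e : (w.length + 1) * (2 * N + 2) = w.length * (2 * N + 2) + (2 * N + 2) := by ring
      omega
  set S : Polynomial ℕ := X * (2 * (N : Polynomial ℕ) + 2) + 1 with hS
  have hSe : ∀ n, S.eval n = n * (2 * N + 2) + 1 := by
    intro n
    simp [hS]
  have key : ∀ a : α, Does C ((ea a).length * (N + 1) + 2 + ((S.eval (ea a).length + 1) +
      ((p.comp S).eval (ea a).length + ((q.comp S).eval (ea a).length * (M + 1) + 1))))
      ⟨ea a, [], [], [], [], []⟩ ⟨[], eb (f a), [], [], [], []⟩ := by
    intro a
    have h1 := Does.cIn eA (⟨ea a, [], [], [], [], []⟩ : SS A B) (ea a)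
    have h2 := Does.uA (⟨[], [], [], [], [], []⟩ : SS A B) (de ((ea a).map eA)).enc.reverse
      (noH_enc _).reverse []
    have h3 := hc (⟨[], [], [], [], [], []⟩ : SS A B) ((ea a).map eA) []
    have h4 := Does.cOut (A := A) eB (⟨[], [], [], [], [], []⟩ : SS A B)
      ((g ((ea a).map eA)).reverse) []
    have e1 : sz ((ea a).map eA) ≤ S.eval (ea a).length := by rw [hSe]; exact hsz _
    have e2 := poly_mono p e1
    have e3 := poly_mono q e1
    have e4 := hq ((ea a).map eA)
    have e5 := length_lt_sz ((g ((ea a).map eA)).reverse)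
    have e6 : ((g ((ea a).map eA)).reverse).length ≤ q.eval (S.eval (ea a).length) := by
      have e4' : sz ((g ((ea a).map eA)).reverse) ≤ q.eval (sz ((ea a).map eA)) := e4
      omega
    have e7 : ((g ((ea a).map eA)).reverse).length * (M + 1) ≤
      q.eval (S.eval (ea a).length) * (M + 1) := Nat.mul_le_mul_right _ e6
    simp only [List.reverse_reverse, List.length_reverse, D.length_enc, List.append_nil] at h2
    simp only [List.append_nil] at h3 h4
    have h5 := (h1.seq (h2.seq (h3.seq h4)))
    rw [h a] at h5
    simp only [List.map_reverse, List.reverse_reverse, List.map_map, Equiv.symm_comp_self,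
      List.map_id] at h5
    refine h5.mono ?_
    rw [eval_comp, eval_comp]
    have e8 : (de ((ea a).map eA)).size ≤ eval (ea a).length S := e1
    have e9 : eval (de ((ea a).map eA)).size p ≤ eval (eval (ea a).length S) p := e2
    rw [h a] at e7
    simp only [List.length_reverse, List.length_map] at e7 ⊢
    omega
  refine ⟨⟨⟨theTM C, Equiv.refl _, Equiv.refl _⟩, (X * ((N : Polynomial ℕ) + 1) + 2 + ((S + 1) +
      (p.comp S + (q.comp S * ((M : Polynomial ℕ) + 1) + 1)))) + 1, fun a => ?_⟩, ?_⟩
  · have hk := key a _ (total C) some none (emb_total C)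
    choose t ht hr using hk
    have hr' : RN (total C) (t + 1) ⟨some (some C.entry), none, (⟨ea a, [], [], [], [], []⟩ : SS A B).fn⟩
      ⟨none, none, (⟨[], eb (f a), [], [], [], []⟩ : SS A B).fn⟩ := hr.trans (RN.single rfl)
    refine ⟨⟨t + 1, ?_⟩, ?_⟩
    · have := hr'.iterate
      have i1 : initList (theTM C) (List.map (Equiv.refl (Gam A B .inp)).invFun (ea a)) =
          ⟨some (some C.entry), none, (⟨ea a, [], [], [], [], []⟩ : SS A B).fn⟩ := by
        unfold initList
        congr 1
        funext k
        cases k <;> simp [theTM]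
      have i2 : haltList (theTM C) (List.map (Equiv.refl (Gam A B .out)).invFun (eb (f a))) =
          ⟨none, none, (⟨[], eb (f a), [], [], [], []⟩ : SS A B).fn⟩ := by
        unfold haltList
        congr 1
        funext k
        cases k <;> simp [theTM]
      have h3 := congrArg some i2
      have h4 := (congrArg (fun z => (flip bind (TM2.step (total C)))^[t+1] (some z)) i1).trans
        (this.trans h3.symm)
      exact h4
    · simp only [eval_add, eval_mul, eval_X, eval_natCast, eval_one, eval_ofNat,
        Nat.cast_id]
      simp only [eval_comp] at ht ⊢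
      omega
  · intro k
    cases k
    · exact inferInstanceAs (Finite A)
    · exact inferInstanceAs (Finite B)
    · exact inferInstanceAs (Finite Sy)
    · exact inferInstanceAs (Finite Sy)
    · exact inferInstanceAs (Finite Sy)
    · exact inferInstanceAs (Finite Sy)

end Pool.Agent.Work.TMLib
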