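import Pool.Agent.Work.TMLib.Lib
import Mathlib.Tactic

/-!
More polynomial-time functions: binary digits, decidable equality on products.
-/

namespace Pool.Agent.Work.TMLib

open Turing Polynomial

set_option linter.unusedSimpArgs false

variable {α β γ δ : Type} [DE α] [DE β] [DE γ] [DE δ]

/-- Types with polynomial-time decidable equality. -/
class PEq (α : Type) [DE α] [DecidableEq α] : Prop where
  peq : PolyF (fun p : α × α => decide (p.1 = p.2))

instance : PEq ℕ := ⟨by fun_prop⟩
instance : PEq Bool := ⟨by fun_prop⟩

@[fun_prop]
theorem PolyF.eq [DecidableEq β] [PEq β] {f g : α → β} (hf : PolyF f) (hg : PolyF g) :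
    PolyF (fun a => decide (f a = g a)) :=
  PolyF.comp (f := fun p : β × β => decide (p.1 = p.2)) (g := fun a => (f a, g a))
    PEq.peq (by fun_prop)

instance [DecidableEq α] [DecidableEq β] [PEq α] [PEq β] : PEq (α × β) := ⟨by
  have : PolyF (fun p : (α × β) × (α × β) => decide (p.1.1 = p.2.1) && decide (p.1.2 = p.2.2)) := by
    fun_prop
  refine this.congrF fun p => ?_
  rw [Bool.eq_iff_iff]
  simp [Prod.ext_iff]⟩

/-- Addition of a carry to a binary number (least significant digit first). -/
def addc : Bool → List Bool → List Bool
  | c, [] => bif c then [true] else []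
  | c, b :: l => (xor c b) :: addc (c && b) l

@[simp] theorem addc_false (l : List Bool) : addc false l = l := by
  induction l with
  | nil => rfl
  | cons b l ih => simp [addc, ih]

theorem addc_bits (n : ℕ) : addc true n.bits = (n + 1).bits := by
  induction n using Nat.binaryRec' with
  | zero => simp [addc]
  | bit b n hb ih =>
    cases b
    · have hn : n ≠ 0 := fun h => by simpa using hb h
      rw [Nat.bits_append_bit n false (fun h => absurd h hn)]
      have h2 : Nat.bit false n + 1 = Nat.bit true n := by simp [Nat.bit]
      rw [h2, Nat.bits_append_bit n true (fun h => rfl)]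
      simp [addc]
    · rw [Nat.bits_append_bit n true (fun h => rfl)]
      have h2 : Nat.bit true n + 1 = Nat.bit false (n + 1) := by simp [Nat.bit]; ring
      rw [h2, Nat.bits_append_bit (n + 1) false (fun h => absurd h (Nat.succ_ne_zero n))]
      simp [addc, ih]

theorem addc_fold (c : Bool) (l : List Bool) (acc : List Bool) :
    (fun s : Bool × List Bool => (bif s.1 then true :: s.2 else s.2).reverse)
      (l.foldl (fun s b => (s.1 && b, (xor s.1 b) :: s.2)) (c, acc)) = acc.reverse ++ addc c l := by
  induction l generalizing c acc with
  | nil => cases c <;> simp [addc]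
  | cons b l ih =>
    simp only [List.foldl_cons] at ih ⊢
    rw [ih]
    simp [addc]

theorem sz_addc (c : Bool) (l : List Bool) : sz (addc c l) ≤ sz l + 4 := by
  induction l generalizing c with
  | nil => cases c <;> simp [addc]
  | cons b l ih =>
    cases c
    · simp
    · cases b
      · simp [addc]
        omega
      · have := ih true
        simp [addc]
        omega

@[fun_prop]
theorem PolyF.xor {f g : α → Bool} (hf : PolyF f) (hg : PolyF g) :
    PolyF (fun a => xor (f a) (g a)) := by
  have : PolyF (fun a => bif f a then !(g a) else g a) := by fun_prop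
  refine this.congrF fun a => ?_
  cases f a <;> cases g a <;> rfl

theorem PolyF.addc : PolyF (fun l : List Bool => TMLib.addc true l) := by
  have h : PolyF (fun l : List Bool => l.foldl (fun (s : Bool × List Bool) b =>
      (s.1 && b, (Bool.xor s.1 b) :: s.2)) (true, [])) := by
    refine PolyF.foldl_add (l := fun l : List Bool => l) (g := fun _ => (true, []))
      (h := fun _ (s : Bool × List Bool) b => (s.1 && b, (Bool.xor s.1 b) :: s.2))
      (by fun_prop) (by fun_prop) (by fun_prop) 8 ?_
    intro a s b _
    have h1 := sz_bool_le (s.1 && b)
    have h2 := sz_bool_le (Bool.xor s.1 b)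
    simp only [sz_pair, sz_cons, eval_ofNat]
    omega
  have h2 : PolyF (fun l : List Bool => (fun s : Bool × List Bool =>
      (bif s.1 then true :: s.2 else s.2).reverse) (l.foldl (fun (s : Bool × List Bool) b =>
      (s.1 && b, (Bool.xor s.1 b) :: s.2)) (true, []))) := by
    refine PolyF.comp (f := fun s : Bool × List Bool =>
      (bif s.1 then true :: s.2 else s.2).reverse) ?_ h
    fun_prop
  exact h2.congrF fun l => by simpa using addc_fold true l []

@[fun_prop]
theorem PolyF.bits {f : α → ℕ} (hf : PolyF f) : PolyF (fun a => (f a).bits) := by
  have h : PolyF (fun n : ℕ => (fun l => TMLib.addc true l)^[n] []) := by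
    refine PolyF.iterate_add (n := fun n : ℕ => n) (g := fun _ => ([] : List Bool))
      (h := fun _ l => TMLib.addc true l) (by fun_prop) (by fun_prop)
      (PolyF.comp (g := fun p : ℕ × List Bool => p.2) PolyF.addc (by fun_prop)) 4 ?_
    intro a s
    simpa using sz_addc true s
  refine PolyF.comp (f := fun n : ℕ => n.bits) (h.congrF fun n => ?_) hf
  induction n with
  | zero => simp
  | succ n ih => rw [Function.iterate_succ_apply', ih, addc_bits]

end Pool.Agent.Work.TMLib
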