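import Mathlib.Tactic

/-!
Propositional formulas in conjunctive normal form.
-/

namespace Pool.Agent.Work.TMLib

/-- A CNF formula is a list of clauses; a clause is a list of literals; the literal `(j, s)` says
that variable `j` has the truth value `s`. -/
abbrev CNF := List (List (ℕ × Bool))

/-- Satisfiability. -/
def Sat (φ : CNF) : Prop := ∃ v : ℕ → Bool, ∀ c ∈ φ, ∃ l ∈ c, v l.1 = l.2

end Pool.Agent.Work.TMLib
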