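import Pool.Agent.Work.TMLib.CLTempl
import Pool.Agent.Work.TMLib.Classes

/-!
Cook-Levin, part 3: every language in `NP` (in the sense of `InNP`) reduces in polynomial time to
the satisfiability of CNF formulas.
-/

namespace Pool.Agent.Work.TMLib

open Turing Polynomial StateTransition

section Run

variable {K : Type} [DecidableEq K] {Γ : K → Type} {Λ σ : Type} (M : Λ → TM2.Stmt Γ Λ σ)

theorem iterate_bind_none (n : ℕ) :
    (flip bind (TM2.step M))^[n] (none : Option (TM2.Cfg Γ Λ σ)) = none := by
  induction n with
  | zero => rfl
  | succ n ih => rw [Function.iterate_succ_apply]; exact ih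

theorem stepH_iterate_of_eval (n : ℕ) (c c' : TM2.Cfg Γ Λ σ)
    (h : (flip bind (TM2.step M))^[n] (some c) = some c') : (stepH M)^[n] c = c' := by
  induction n generalizing c with
  | zero => simpa using h
  | succ n ih =>
    rw [Function.iterate_succ_apply] at h ⊢
    have e : flip bind (TM2.step M) (some c) = TM2.step M c := rfl
    rw [e] at h
    cases hs : TM2.step M c with
    | none => rw [hs, iterate_bind_none] at h; simp at h
    | some d =>
      rw [hs] at h
      have : stepH M c = d := by simp [stepH, hs]
      rw [this]
      exact ih d h

theorem stepH_halted (c : TM2.Cfg Γ Λ σ) (hc : c.l = none) (n : ℕ) : (stepH M)^[n] c = c := by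
  have h1 : stepH M c = c := by
    obtain ⟨l, v, S⟩ := c
    simp only at hc
    subst hc
    rfl
  induction n with
  | zero => rfl
  | succ n ih => rw [Function.iterate_succ_apply, h1, ih]

end Run

/-- The clauses describing the initial configuration with input `w` and an unknown certificate of
length at most `P`. Here `s` is the fact number of the initial state, `es` are the fact numbers of
the empty cells of the other stacks, `c0, c1` those of the input symbols for the bits of `w`,
`d0, d1` those for the bits of the certificate, and `d` that of the empty cell of the input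
stack. -/
def inpCNF (s : ℕ) (es : List ℕ) (c0 c1 d0 d1 d : ℕ) (w : List Bool) (P H : ℕ) : CNF :=
  [(vn 0 0 s, true)] :: (List.range H).flatMap fun i =>
    (es.map fun e => [(vn 0 i e, true)]) ++
    (if i < w.length then [[(vn 0 i (bif w.getD i false then c1 else c0), true)]]
    else if i < w.length + P then
      [[(vn 0 i d1, true), (vn 0 i d0, true), (vn 0 i d, true)],
        [(vn 0 i d, false), (vn 0 (i + 1) d, true)]]
    else [[(vn 0 i d, true)]])

theorem PolyF.inpCNF (s : ℕ) (es : List ℕ) (c0 c1 d0 d1 d : ℕ) {α : Type} [DE α]
    {w : α → List Bool} {P H : α → ℕ} (hw : PolyF w) (hP : PolyF P) (hH : PolyF H) :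
    PolyF (fun a => TMLib.inpCNF s es c0 c1 d0 d1 d (w a) (P a) (H a)) := by
  unfold TMLib.inpCNF
  refine PolyF.cons (by fun_prop) ?_
  refine PolyF.flatMap (l := fun a => List.range (H a)) (f := fun a i =>
    (es.map fun e => [(TMLib.vn 0 i e, true)]) ++
    (if i < (w a).length then [[(TMLib.vn 0 i (bif (w a).getD i false then c1 else c0), true)]]
    else if i < (w a).length + P a then
      [[(TMLib.vn 0 i d1, true), (TMLib.vn 0 i d0, true), (TMLib.vn 0 i d, true)],
        [(TMLib.vn 0 i d, false), (TMLib.vn 0 (i + 1) d, true)]]
    else [[(TMLib.vn 0 i d, true)]])) (by fun_prop) ?_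
  refine PolyF.append ?_ ?_
  · refine PolyF.map (l := fun _ : α × ℕ => es)
      (f := fun p e => [(TMLib.vn 0 p.2 e, true)]) (by fun_prop) (by fun_prop)
  · refine PolyF.ite (c := fun p : α × ℕ => p.2 < (w p.1).length) (by fun_prop) (by fun_prop) ?_
    refine PolyF.ite (c := fun p : α × ℕ => p.2 < (w p.1).length + P p.1)
      (by fun_prop) (by fun_prop) (by fun_prop)

theorem inpCNF_sat {s : ℕ} {es : List ℕ} {c0 c1 d0 d1 d : ℕ} {w : List Bool} {P H : ℕ}
    {v : ℕ → Bool} :
    (∀ c ∈ inpCNF s es c0 c1 d0 d1 d w P H, SatC v c) ↔
      v (vn 0 0 s) = true ∧ (∀ i < H, ∀ e ∈ es, v (vn 0 i e) = true) ∧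
      (∀ i < H, i < w.length → v (vn 0 i (bif w.getD i false then c1 else c0)) = true) ∧
      (∀ i < H, w.length ≤ i → i < w.length + P →
        (v (vn 0 i d1) = true ∨ v (vn 0 i d0) = true ∨ v (vn 0 i d) = true) ∧
        (v (vn 0 i d) = false ∨ v (vn 0 (i + 1) d) = true)) ∧
      (∀ i < H, w.length + P ≤ i → v (vn 0 i d) = true) := by
  simp only [inpCNF, List.mem_cons, List.mem_flatMap, List.mem_range, List.mem_append,
    List.mem_map, forall_eq_or_imp, satC_singleton]
  constructor
  · rintro ⟨h0, h⟩
    refine ⟨h0, ?_, ?_, ?_, ?_⟩
    · intro i hi e he
      exact satC_singleton.1 (h _ ⟨i, hi, Or.inl ⟨e, he, rfl⟩⟩)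
    · intro i hi hw
      exact satC_singleton.1
        (h _ ⟨i, hi, Or.inr (by rw [if_pos hw]; exact List.mem_cons_self)⟩)
    · intro i hi hw hP
      constructor
      · have h5 := h _ ⟨i, hi, Or.inr (by
          rw [if_neg (by omega), if_pos hP]; exact List.mem_cons_self)⟩
        rw [satC_cons, satC_cons, satC_singleton] at h5
        exact h5
      · have h5 := h _ ⟨i, hi, Or.inr (by
          rw [if_neg (by omega), if_pos hP]
          exact List.mem_cons_of_mem _ List.mem_cons_self)⟩
        rw [satC_cons, satC_singleton] at h5
        exact h5
    · intro i hi hP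
      exact satC_singleton.1 (h _ ⟨i, hi, Or.inr (by
        rw [if_neg (by omega), if_neg (by omega)]; exact List.mem_cons_self)⟩)
  · rintro ⟨h0, h1, h2, h3, h4⟩
    refine ⟨h0, ?_⟩
    rintro c ⟨i, hi, ⟨e, he, rfl⟩ | hc⟩
    · exact satC_singleton.2 (h1 i hi e he)
    · by_cases hw : i < w.length
      · rw [if_pos hw] at hc
        simp only [List.mem_singleton] at hc
        subst hc
        exact satC_singleton.2 (h2 i hi hw)
      · rw [if_neg hw] at hc
        by_cases hP : i < w.length + P
        · rw [if_pos hP] at hc
          have h5 := h3 i hi (by omega) hP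
          simp only [List.mem_cons, List.not_mem_nil, or_false] at hc
          rcases hc with rfl | rfl
          · rw [satC_cons, satC_cons, satC_singleton]
            exact h5.1
          · rw [satC_cons, satC_singleton]
            exact h5.2
        · rw [if_neg hP] at hc
          simp only [List.mem_singleton] at hc
          subst hc
          exact satC_singleton.2 (h4 i hi (by omega))

theorem poly_mono' (p : Polynomial ℕ) {a b : ℕ} (h : a ≤ b) : p.eval a ≤ p.eval b :=
  poly_mono p h

theorem initList_stk_self (tm : FinTM2) (x : List (tm.Γ tm.k₀)) :
    (initList tm x).stk tm.k₀ = x := by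
  simp [initList]

theorem initList_stk_ne (tm : FinTM2) (x : List (tm.Γ tm.k₀)) {k : tm.K} (hk : k ≠ tm.k₀) :
    (initList tm x).stk k = [] := by
  simp [initList, hk]

theorem haltList_stk_self (tm : FinTM2) (x : List (tm.Γ tm.k₁)) :
    (haltList tm x).stk tm.k₁ = x := by
  simp [haltList]

/-- The run of the machine reaches the halting configuration and stays there. -/
theorem run_eq {tm : FinTM2} {x : List (tm.Γ tm.k₀)} {y : List (tm.Γ tm.k₁)} {m T : ℕ}
    (h : TM2OutputsInTime tm x (some y) m) (hT : m ≤ T) :
    (@stepH tm.K tm.kDecidableEq tm.Γ tm.Λ tm.σ tm.m)^[T] (initList tm x) = haltList tm y := by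
  have : DecidableEq tm.K := tm.kDecidableEq
  obtain ⟨⟨n, hn⟩, hle⟩ := h
  simp only at hle
  have h1 := @stepH_iterate_of_eval tm.K tm.kDecidableEq tm.Γ tm.Λ tm.σ tm.m n _ _ hn
  obtain ⟨r, rfl⟩ := Nat.exists_eq_add_of_le (hle.trans hT)
  rw [Nat.add_comm, Function.iterate_add_apply, h1]
  exact @stepH_halted tm.K tm.kDecidableEq tm.Γ tm.Λ tm.σ tm.m _ rfl r

theorem getElem?_encPair (w u : List Bool) (i : ℕ) :
    (encPair (w, u))[i]? =
      if i < w.length then some (Sum.inl (w.getD i false))
      else (u[i - w.length]?).map Sum.inr := by
  simp only [encPair]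
  by_cases h : i < w.length
  · rw [if_pos h, List.getElem?_append_left (by simpa using h)]
    simp [h]
  · rw [if_neg h, List.getElem?_append_right (by simpa using h)]
    simp

/-- **Cook-Levin theorem** for the stack machines of Mathlib. -/
theorem cook_levin (L : Set (List Bool)) (hL : InNP L) :
    ∃ g : List Bool → CNF, PolyF g ∧ ∀ w, w ∈ L ↔ Sat (g w) := by
  classical
  obtain ⟨p, R, ⟨tmh, hfin⟩, hR⟩ := hL
  obtain ⟨⟨tm, ia, oa⟩, time, hout⟩ := tmh
  simp only at hfin hout
  letI : DecidableEq tm.K := tm.kDecidableEq
  letI : Fintype tm.K := tm.kFin
  letI : Fintype tm.Λ := tm.ΛFin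
  letI : Fintype tm.σ := tm.σFin
  letI : ∀ k, Fintype (tm.Γ k) := fun k => Fintype.ofFinite _
  obtain ⟨code, hcode⟩ := exists_injective_nat (Kind tm.Γ tm.Λ tm.σ)
  set b : ℕ := (Finset.univ : Finset tm.Λ).sup (fun l => npop (tm.m l)) with hbdef
  have hb : ∀ l, npop (tm.m l) ≤ b := fun l =>
    Finset.le_sup (f := fun l => npop (tm.m l)) (Finset.mem_univ l)
  set s : ℕ := code (.inl (some tm.main, tm.initialState)) with hs
  set es : List ℕ := ((Finset.univ : Finset tm.K).erase tm.k₀).toList.map fun k =>
    code (.inr ⟨k, none⟩) with hes
  set c0 : ℕ := code (.inr ⟨tm.k₀, some (ia.symm (.inl false))⟩) with hc0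
  set c1 : ℕ := code (.inr ⟨tm.k₀, some (ia.symm (.inl true))⟩) with hc1
  set d0 : ℕ := code (.inr ⟨tm.k₀, some (ia.symm (.inr false))⟩) with hd0
  set d1 : ℕ := code (.inr ⟨tm.k₀, some (ia.symm (.inr true))⟩) with hd1
  set d : ℕ := code (.inr ⟨tm.k₀, none⟩) with hd
  set o0 : ℕ := code (.inr ⟨tm.k₁, some (oa.symm false)⟩) with ho0
  set P : List Bool → ℕ := fun w => p.eval w.length with hP
  set T : List Bool → ℕ := fun w => time.eval (w.length + P w) with hT
  set H : List Bool → ℕ := fun w => b * T w + b + 1 + (w.length + P w) + 1 with hH
  refine ⟨fun w => inpCNF s es c0 c1 d0 d1 d w (P w) (H w) ++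
    (transCNF (templs tm.m b code) (T w) (H w) ++ [[(vn (T w) 0 o0, false)]]), ?_, ?_⟩
  · have hP' : PolyF P := by
      simp only [hP]
      fun_prop
    have hT' : PolyF T := by
      simp only [hT]
      fun_prop
    have hH' : PolyF H := by
      simp only [hH]
      fun_prop
    refine PolyF.append (PolyF.inpCNF _ _ _ _ _ _ _ PolyF.id hP' hH') (PolyF.append
      (PolyF.transCNF _ hT' hH') ?_)
    fun_prop
  · intro w
    have hsat : ∀ v : ℕ → Bool, (∀ c ∈ (inpCNF s es c0 c1 d0 d1 d w (P w) (H w) ++
        (transCNF (templs tm.m b code) (T w) (H w) ++ [[(vn (T w) 0 o0, false)]])),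
          ∃ l ∈ c, v l.1 = l.2) ↔
        (∀ c ∈ inpCNF s es c0 c1 d0 d1 d w (P w) (H w), SatC v c) ∧
        (∀ c ∈ transCNF (templs tm.m b code) (T w) (H w), SatC v c) ∧
        v (vn (T w) 0 o0) = false := by
      intro v
      simp only [List.mem_append, List.mem_singleton]
      constructor
      · intro h
        refine ⟨fun c hc => h c (Or.inl hc), fun c hc => h c (Or.inr (Or.inl hc)), ?_⟩
        exact satC_singleton.1 (h _ (Or.inr (Or.inr rfl)))
      · rintro ⟨h1, h2, h3⟩ c (hc | hc | rfl)
        · exact h1 c hc
        · exact h2 c hc
        · exact satC_singleton.2 h3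
    -- the run on a pair
    have hrun : ∀ u : List Bool, u.length ≤ P w →
        (stepH tm.m)^[T w] (initList tm ((encPair (w, u)).map ia.invFun)) =
          haltList tm [oa.symm (R (w, u))] := by
      intro u hu
      refine run_eq (hout (w, u)) ?_
      apply poly_mono'
      simp only [encPair, List.length_append, List.length_map]
      omega
    have hcell : ∀ (u : List Bool) (i : ℕ),
        ((initList tm ((encPair (w, u)).map ia.invFun)).stk tm.k₀)[i]? =
          if i < w.length then some (ia.symm (.inl (w.getD i false)))
          else (u[i - w.length]?).map fun x => ia.symm (.inr x) := by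
      intro u i
      rw [initList_stk_self, List.getElem?_map, getElem?_encPair]
      by_cases h : i < w.length
      · rw [if_pos h, if_pos h]; rfl
      · rw [if_neg h, if_neg h, Option.map_map]; rfl
    rw [hR w]
    simp only [Sat, hsat]
    constructor
    · rintro ⟨u, hu, hRu⟩
      have hu' : u.length ≤ P w := hu
      set C : ℕ → TM2.Cfg tm.Γ tm.Λ tm.σ := fun t =>
        (stepH tm.m)^[t] (initList tm ((encPair (w, u)).map ia.invFun)) with hC
      have hC1 : ∀ t, C (t + 1) = stepH tm.m (C t) := fun t =>
        Function.iterate_succ_apply' _ _ _
      have hC0 : C 0 = initList tm ((encPair (w, u)).map ia.invFun) := rfl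
      refine ⟨valOf code C, ?_, sound_step tm.m b code hcode hb C hC1 _ _, ?_⟩
      · rw [inpCNF_sat]
        have hk0 : ∀ i, ∀ γ, Holds (C 0) i (.inr ⟨tm.k₀, γ⟩) ↔
            (if i < w.length then some (ia.symm (.inl (w.getD i false)))
              else (u[i - w.length]?).map fun x => ia.symm (.inr x)) = γ := by
          intro i γ
          rw [← hcell u i]
          rfl
        refine ⟨?_, ?_, ?_, ?_, ?_⟩
        · rw [hs, valOf_vn code hcode]
          exact ⟨rfl, rfl⟩
        · intro i hi e he
          rw [hes, List.mem_map] at he
          obtain ⟨k, hk, rfl⟩ := he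
          rw [valOf_vn code hcode]
          have hk' : k ≠ tm.k₀ := by simpa using hk
          show ((C 0).stk k)[i]? = none
          rw [hC0, initList_stk_ne tm _ hk']
          rfl
        · intro i hi hw
          have : (bif w.getD i false then c1 else c0) =
              code (.inr ⟨tm.k₀, some (ia.symm (.inl (w.getD i false)))⟩) := by
            cases w.getD i false <;> rfl
          rw [this, valOf_vn code hcode, hk0, if_pos hw]
        · intro i hi hw hP
          rw [hd1, hd0, hd, valOf_vn code hcode, valOf_vn code hcode, valOf_vn code hcode,
            valOf_vn code hcode, valOf_vn_false code hcode, hk0, hk0, hk0, hk0,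
            if_neg (by omega), if_neg (by omega)]
          constructor
          · cases h : u[i - w.length]? with
            | none => right; right; rfl
            | some x =>
              cases x
              · right; left; rfl
              · left; rfl
          · cases h : u[i - w.length]? with
            | none =>
              right
              have h1 : u.length ≤ i - w.length := by simpa using h
              have h2 : u[i + 1 - w.length]? = none := by
                rw [List.getElem?_eq_none_iff]
                omega
              rw [h2]
              rfl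
            | some x => left; simp
        · intro i hi hPi
          rw [hd, valOf_vn code hcode, hk0, if_neg (by omega)]
          have h2 : u[i - w.length]? = none := by
            rw [List.getElem?_eq_none_iff]
            have h5 := hu'
            omega
          rw [h2]
          rfl
      · rw [ho0, valOf_vn_false code hcode]
        intro h
        have h1 : ((C (T w)).stk tm.k₁)[0]? = some (oa.symm false) := h
        have h2 : C (T w) = haltList tm [oa.symm (R (w, u))] := hrun u hu
        rw [h2, haltList_stk_self, hRu] at h1
        simp at h1
    · rintro ⟨v, hv1, hv2, hv3⟩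
      rw [inpCNF_sat] at hv1
      obtain ⟨hv0, hves, hvw, hvP, hvr⟩ := hv1
      have hex : ∃ j, j = P w ∨ v (vn 0 (w.length + j) d) = true := ⟨P w, Or.inl rfl⟩
      set j₀ := Nat.find hex with hj₀
      have hj₀P : j₀ ≤ P w := Nat.find_min' hex (Or.inl rfl)
      have hjmin : ∀ j < j₀, v (vn 0 (w.length + j) d) = false := by
        intro j hj
        have := Nat.find_min hex hj
        push Not at this
        simpa using this.2
      have hHbig : w.length + P w < H w := by
        simp only [hH]
        omega
      -- emptiness propagates
      have hprop : ∀ j, j₀ ≤ j → w.length + j < H w → v (vn 0 (w.length + j) d) = true := by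
        intro j hj
        induction j, hj using Nat.le_induction with
        | base =>
          intro hlt
          rcases Nat.find_spec hex with h | h
          · rw [← hj₀] at h
            exact hvr _ hlt (by omega)
          · exact h
        | succ j hj ih =>
          intro hlt
          have h1 := ih (by omega)
          by_cases hjP : j < P w
          · have h2 := (hvP (w.length + j) (by omega) (by omega) (by omega)).2
            rw [h1] at h2
            rcases h2 with h2 | h2
            · simp at h2
            · exact h2
          · exact hvr _ hlt (by omega)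
      set u : List Bool := (List.range j₀).map fun j => v (vn 0 (w.length + j) d1) with hu
      have hulen : u.length = j₀ := by simp [hu]
      refine ⟨u, by rw [hulen]; exact hj₀P, ?_⟩
      set I := initList tm ((encPair (w, u)).map ia.invFun) with hI
      have hgood0 : Good code v 0 (H w) I := by
        refine ⟨hv0, ?_⟩
        intro k i hi
        by_cases hk : k = tm.k₀
        · subst hk
          rw [hI, hcell u i]
          by_cases hw : i < w.length
          · rw [if_pos hw]
            have h1 := hvw i hi hw
            have : (bif w.getD i false then c1 else c0) =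
                code (.inr ⟨tm.k₀, some (ia.symm (.inl (w.getD i false)))⟩) := by
              cases w.getD i false <;> rfl
            rw [this] at h1
            exact h1
          · rw [if_neg hw]
            obtain ⟨j, rfl⟩ := Nat.exists_eq_add_of_le (not_lt.1 hw)
            rw [Nat.add_sub_cancel_left]
            by_cases hj : j < j₀
            · have h1 := (hvP (w.length + j) (by omega) (by omega) (by omega)).1
              have h2 := hjmin j hj
              have h3 : u[j]? = some (v (vn 0 (w.length + j) d1)) := by
                simp [hu, hj]
              rw [h3]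
              rw [h2] at h1
              cases h4 : v (vn 0 (w.length + j) d1) with
              | true =>
                simp only [Option.map_some]
                exact h4
              | false =>
                rw [h4] at h1
                simp only [Bool.false_eq_true, false_or, or_false] at h1
                simp only [Option.map_some]
                exact h1
            · have h3 : u[j]? = none := by
                rw [List.getElem?_eq_none_iff]
                omega
              rw [h3]
              exact hprop j (by omega) hi
        · rw [hI, initList_stk_ne tm _ hk]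
          exact hves i hi _ (by
            rw [hes, List.mem_map]
            exact ⟨k, by simpa using hk, rfl⟩)
      have hgood : ∀ t ≤ T w, Good code v t (H w - b * t) ((stepH tm.m)^[t] I) := by
        intro t
        induction t with
        | zero =>
          intro _
          simpa using hgood0
        | succ t ih =>
          intro ht
          have h1 := ih (by omega)
          have h2 : b * t + b ≤ b * T w := by
            have := Nat.mul_le_mul_left b ht
            rw [Nat.mul_succ] at this
            exact this
          have h3 := good_step tm.m b code hb hv2 h1 (by omega) (by simp only [hH]; omega)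
            (by omega) (by omega)
          rw [Function.iterate_succ_apply', Nat.mul_succ, ← Nat.sub_sub]
          exact h3
      have hend := (hgood (T w) le_rfl).2 tm.k₁ 0 (by simp only [hH]; omega)
      rw [hI, hrun u (by rw [hulen]; exact hj₀P), haltList_stk_self] at hend
      simp only [List.getElem?_cons_zero] at hend
      cases hRu : R (w, u) with
      | true => rfl
      | false =>
        rw [hRu, hv3] at hend
        simp at hend

end Pool.Agent.Work.TMLib
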