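import Mathlib.Computability.TuringMachine.Computable
import Mathlib.Data.List.ReduceOption
import Mathlib.Tactic

/-!
Cook-Levin, part 1: locality of the step function of the stack machines of Mathlib.
-/

namespace Pool.Agent.Work.TMLib

open Turing

section Frame

variable {K : Type} [DecidableEq K] {Γ : K → Type} {Λ σ : Type}

/-- A bound for the number of pops and peeks of a statement. -/
def npop : TM2.Stmt Γ Λ σ → ℕ
  | .push _ _ q => npop q
  | .peek _ _ q => npop q + 1
  | .pop _ _ q => npop q + 1
  | .load _ q => npop q
  | .branch _ q₁ q₂ => max (npop q₁) (npop q₂)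
  | .goto _ => 0
  | .halt => 0

theorem stepAux_frame (s : TM2.Stmt Γ Λ σ) (v : σ) (A B : ∀ k, List (Γ k))
    (h : ∀ k, B k = [] ∨ npop s ≤ (A k).length) :
    TM2.stepAux s v (fun k => A k ++ B k) =
      ⟨(TM2.stepAux s v A).l, (TM2.stepAux s v A).var,
        fun k => (TM2.stepAux s v A).stk k ++ B k⟩ := by
  induction s generalizing v A with
  | push k f q ih =>
    have e : Function.update (fun k => A k ++ B k) k (f v :: (A k ++ B k)) =
        fun k' => Function.update A k (f v :: A k) k' ++ B k' := by
      funext k'
      by_cases hk : k' = k
      · subst hk; simp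
      · simp [Function.update_of_ne hk]
    simp only [TM2.stepAux]
    rw [e]
    refine ih v _ fun k' => ?_
    rcases h k' with h' | h'
    · exact Or.inl h'
    · right
      by_cases hk : k' = k
      · subst hk
        simp only [npop] at h'
        simp
        omega
      · rw [Function.update_of_ne hk]
        exact h'
  | peek k f q ih =>
    have e : (A k ++ B k).head? = (A k).head? := by
      rcases h k with h' | h'
      · simp [h']
      · cases hA : A k with
        | nil => simp [hA, npop] at h'
        | cons a l => simp
    simp only [TM2.stepAux]
    rw [e]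
    refine ih _ _ fun k' => ?_
    rcases h k' with h' | h'
    · exact Or.inl h'
    · right
      simp only [npop] at h'
      omega
  | pop k f q ih =>
    have e : (A k ++ B k).head? = (A k).head? := by
      rcases h k with h' | h'
      · simp [h']
      · cases hA : A k with
        | nil => simp [hA, npop] at h'
        | cons a l => simp
    have e2 : Function.update (fun k => A k ++ B k) k (A k ++ B k).tail =
        fun k' => Function.update A k (A k).tail k' ++ B k' := by
      funext k'
      by_cases hk : k' = k
      · subst hk
        simp only [Function.update_self]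
        rcases h k' with h' | h'
        · simp [h']
        · cases hA : A k' with
          | nil => simp [hA, npop] at h'
          | cons a l => simp
      · simp [Function.update_of_ne hk]
    simp only [TM2.stepAux]
    rw [e, e2]
    refine ih _ _ fun k' => ?_
    rcases h k' with h' | h'
    · exact Or.inl h'
    · right
      simp only [npop] at h'
      by_cases hk : k' = k
      · subst hk
        simp
        omega
      · rw [Function.update_of_ne hk]
        omega
  | load f q ih =>
    simp only [TM2.stepAux]
    exact ih _ _ h
  | branch f q₁ q₂ ih₁ ih₂ =>
    simp only [TM2.stepAux]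
    cases f v
    · refine ih₂ _ _ fun k => ?_
      rcases h k with h' | h'
      · exact Or.inl h'
      · exact Or.inr ((le_max_right _ _).trans h')
    · refine ih₁ _ _ fun k => ?_
      rcases h k with h' | h'
      · exact Or.inl h'
      · exact Or.inr ((le_max_left _ _).trans h')
  | goto f => simp [TM2.stepAux]
  | halt => simp [TM2.stepAux]

/-- The step function, with halted configurations fixed. -/
def stepH (M : Λ → TM2.Stmt Γ Λ σ) (c : TM2.Cfg Γ Λ σ) : TM2.Cfg Γ Λ σ :=
  (TM2.step M c).getD c

/-- The effect of a step on the top parts of the stacks. -/
def nxt (M : Λ → TM2.Stmt Γ Λ σ) (q : Option Λ × σ) (A : ∀ k, List (Γ k)) : TM2.Cfg Γ Λ σ :=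
  match q.1 with
  | none => ⟨none, q.2, A⟩
  | some l => TM2.stepAux (M l) q.2 A

theorem stepH_eq (M : Λ → TM2.Stmt Γ Λ σ) (b : ℕ) (hb : ∀ l, npop (M l) ≤ b)
    (c : TM2.Cfg Γ Λ σ) :
    stepH M c =
      ⟨(nxt M (c.l, c.var) fun k => (c.stk k).take b).l,
        (nxt M (c.l, c.var) fun k => (c.stk k).take b).var,
        fun k => (nxt M (c.l, c.var) fun k => (c.stk k).take b).stk k ++ (c.stk k).drop b⟩ := by
  obtain ⟨l, v, S⟩ := c
  cases l with
  | none => simp [stepH, nxt]
  | some l =>
    simp only [stepH, nxt, TM2.step, Option.getD_some]
    have h := stepAux_frame (M l) v (fun k => (S k).take b) (fun k => (S k).drop b) (by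
      intro k
      by_cases hk : (S k).length ≤ b
      · left
        simpa using hk
      · right
        have := hb l
        simp
        omega)
    simp only [List.take_append_drop] at h
    exact h

theorem reduceOption_ofFn_getElem? {α : Type} (l : List α) (b : ℕ) :
    (List.ofFn fun j : Fin b => l[(j : ℕ)]?).reduceOption = l.take b := by
  induction b generalizing l with
  | zero => simp [List.reduceOption]
  | succ b ih =>
    cases l with
    | nil =>
      rw [List.ofFn_succ]
      have := ih []
      simp only [List.getElem?_nil, List.take_nil] at this ⊢
      rw [List.reduceOption_cons_of_none]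
      exact this
    | cons a l =>
      rw [List.ofFn_succ]
      simp only [Fin.val_zero, List.getElem?_cons_zero, Fin.val_succ, List.getElem?_cons_succ,
        List.reduceOption_cons_of_some, List.take_succ_cons]
      rw [ih]

end Frame

end Pool.Agent.Work.TMLib
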