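import Pool.Agent.Work.TMLib.CLFrame
import Pool.Agent.Work.TMLib.Lib
import Pool.Agent.Work.TMLib.CNF

/-!
Cook-Levin, part 2: the clauses describing the transitions of a stack machine.
-/

namespace Pool.Agent.Work.TMLib

open Turing Polynomial

/-- The number of the propositional variable saying that fact number `c` holds at time `t` and
position `i`. -/
def vn (t i c : ℕ) : ℕ := Nat.pair t (Nat.pair i c)

/-- A literal template: time offset, position multiplier, position offset, fact number, sign. -/
abbrev LT := ℕ × ℕ × ℕ × ℕ × Bool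

/-- The instance of a literal template at time `t` and position `i`. -/
def ltInst (t i : ℕ) (x : LT) : ℕ × Bool :=
  (vn (t + x.1) (x.2.1 * i + x.2.2.1) x.2.2.2.1, x.2.2.2.2)

/-- All instances of a list of clause templates at times `< T` and positions `< H`. -/
def transCNF (ts : List (List LT)) (T H : ℕ) : CNF :=
  (List.range T).flatMap fun t => (List.range H).flatMap fun i => ts.map fun c => c.map (ltInst t i)

section PolyF

variable {α : Type} [DE α]

@[fun_prop]
theorem PolyF.natPair {f g : α → ℕ} (hf : PolyF f) (hg : PolyF g) :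
    PolyF (fun a => Nat.pair (f a) (g a)) := by
  unfold Nat.pair
  exact PolyF.ite (c := fun a => f a < g a) (by fun_prop) (by fun_prop) (by fun_prop)

@[fun_prop]
theorem PolyF.vn {f g h : α → ℕ} (hf : PolyF f) (hg : PolyF g) (hh : PolyF h) :
    PolyF (fun a => TMLib.vn (f a) (g a) (h a)) := by
  unfold TMLib.vn
  fun_prop

theorem PolyF.transCNF (ts : List (List LT)) {T H : α → ℕ} (hT : PolyF T) (hH : PolyF H) :
    PolyF (fun a => TMLib.transCNF ts (T a) (H a)) := by
  unfold TMLib.transCNF
  refine PolyF.flatMap (l := fun a => List.range (T a))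
    (f := fun a t => (List.range (H a)).flatMap fun i => ts.map fun c => c.map (ltInst t i))
    (by fun_prop) ?_
  refine PolyF.flatMap (l := fun p : α × ℕ => List.range (H p.1))
    (f := fun p i => ts.map fun c => c.map (ltInst p.2 i)) (by fun_prop) ?_
  refine PolyF.map (l := fun _ : (α × ℕ) × ℕ => ts)
    (f := fun p c => c.map (ltInst p.1.2 p.2)) (by fun_prop) ?_
  refine PolyF.map (l := fun p : ((α × ℕ) × ℕ) × List LT => p.2)
    (f := fun p x => ltInst p.1.1.2 p.1.2 x) (by fun_prop) ?_
  unfold ltInst
  fun_prop

end PolyF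

/-- A clause is satisfied by `v`. -/
def SatC (v : ℕ → Bool) (c : List (ℕ × Bool)) : Prop := ∃ l ∈ c, v l.1 = l.2

theorem satC_append {v : ℕ → Bool} {c c' : List (ℕ × Bool)} :
    SatC v (c ++ c') ↔ SatC v c ∨ SatC v c' := by
  simp only [SatC, List.mem_append]
  constructor
  · rintro ⟨l, h | h, h'⟩
    · exact Or.inl ⟨l, h, h'⟩
    · exact Or.inr ⟨l, h, h'⟩
  · rintro (⟨l, h, h'⟩ | ⟨l, h, h'⟩)
    · exact ⟨l, Or.inl h, h'⟩
    · exact ⟨l, Or.inr h, h'⟩

theorem satC_singleton {v : ℕ → Bool} {l : ℕ × Bool} : SatC v [l] ↔ v l.1 = l.2 := by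
  simp [SatC]

theorem satC_cons {v : ℕ → Bool} {l : ℕ × Bool} {c : List (ℕ × Bool)} :
    SatC v (l :: c) ↔ v l.1 = l.2 ∨ SatC v c := by
  simp [SatC]

theorem transCNF_sat {v : ℕ → Bool} {ts : List (List LT)} {T H : ℕ} :
    (∀ c ∈ transCNF ts T H, SatC v c) ↔
      ∀ t < T, ∀ i < H, ∀ c ∈ ts, SatC v (c.map (ltInst t i)) := by
  simp only [transCNF, List.mem_flatMap, List.mem_range, List.mem_map]
  constructor
  · intro h t ht i hi c hc
    exact h _ ⟨t, ht, i, hi, c, hc, rfl⟩
  · rintro h _ ⟨t, ht, i, hi, c, hc, rfl⟩
    exact h t ht i hi c hc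

section Machine

variable {K : Type} [DecidableEq K] [Fintype K] {Γ : K → Type} [∀ k, Fintype (Γ k)]
  {Λ σ : Type} [Fintype Λ] [Fintype σ] (M : Λ → TM2.Stmt Γ Λ σ) (b : ℕ)

variable (Γ Λ σ) in
/-- The kinds of facts: the state is `q`; the cell of stack `k` has content `γ` (or is empty). -/
abbrev Kind := (Option Λ × σ) ⊕ (Σ k, Option (Γ k))

variable (Γ) in
/-- The contents of the first `b` cells of all stacks. -/
abbrev Tops := (k : K) → Fin b → Option (Γ k)

variable {b} in
/-- The tops as lists. -/
def topA (τ : Tops Γ b) : ∀ k, List (Γ k) := fun k => (List.ofFn (τ k)).reduceOption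

variable (code : Kind Γ Λ σ → ℕ)

variable {b} in
/-- The premises of the clauses for state `q` and tops `τ`. -/
noncomputable def prem (q : Option Λ × σ) (τ : Tops Γ b) : List LT :=
  (0, 0, 0, code (.inl q), false) :: ((Finset.univ : Finset (K × Fin b)).toList.map fun x =>
    (0, 0, x.2.val, code (.inr ⟨x.1, τ x.1 x.2⟩), false))

variable {b} in
/-- The clause templates for state `q` and tops `τ`. -/
noncomputable def templ (x : (Option Λ × σ) × Tops Γ b) : List (List LT) :=
  (prem code x.1 x.2 ++
      [(1, 0, 0, code (.inl ((nxt M x.1 (topA x.2)).l, (nxt M x.1 (topA x.2)).var)), true)]) ::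
  (((Finset.univ : Finset K).toList.flatMap fun k =>
      (List.range ((nxt M x.1 (topA x.2)).stk k).length).map fun i =>
        prem code x.1 x.2 ++
          [(1, 0, i, code (.inr ⟨k, ((nxt M x.1 (topA x.2)).stk k)[i]?⟩), true)]) ++
  ((Finset.univ : Finset (Σ k, Option (Γ k))).toList.map fun y =>
    prem code x.1 x.2 ++ [(0, 1, b, code (.inr y), false),
      (1, 1, ((nxt M x.1 (topA x.2)).stk y.1).length, code (.inr y), true)]))

/-- All clause templates. -/
noncomputable def templs : List (List LT) :=
  (Finset.univ : Finset ((Option Λ × σ) × Tops Γ b)).toList.flatMap (templ M code)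

/-- The state and the first `n` positions of all stacks of `c` are correctly described by `v` at
time `t`. -/
def Good (v : ℕ → Bool) (t n : ℕ) (c : TM2.Cfg Γ Λ σ) : Prop :=
  v (vn t 0 (code (.inl (c.l, c.var)))) = true ∧
    ∀ k, ∀ i < n, v (vn t i (code (.inr ⟨k, (c.stk k)[i]?⟩))) = true

theorem not_satC_prem {v : ℕ → Bool} {t n i : ℕ} {c : TM2.Cfg Γ Λ σ} (h : Good code v t n c)
    (hbn : b ≤ n) :
    ¬ SatC v ((prem code (c.l, c.var)
      (fun k (j : Fin b) => (c.stk k)[(j : ℕ)]?)).map (ltInst t i)) := by
  rintro ⟨l, hl, hv⟩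
  simp only [prem, List.map_cons, List.map_map, List.mem_cons, List.mem_map, Finset.mem_toList,
    Finset.mem_univ, true_and, Function.comp] at hl
  rcases hl with rfl | ⟨⟨k, j⟩, rfl⟩
  · have := h.1
    simp only [ltInst, Nat.zero_mul, Nat.add_zero] at hv
    rw [this] at hv
    simp at hv
  · have := h.2 k j (by omega)
    simp only [ltInst, Nat.zero_mul, Nat.add_zero, Nat.zero_add] at hv
    rw [this] at hv
    simp at hv

theorem good_step {v : ℕ → Bool} {T H t n : ℕ} {c : TM2.Cfg Γ Λ σ}
    (hb : ∀ l, npop (M l) ≤ b)
    (hv : ∀ c ∈ transCNF (templs M b code) T H, SatC v c) (h : Good code v t n c)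
    (htT : t < T) (hbn : b ≤ n) (hnH : n ≤ H) (hH : 0 < H) :
    Good code v (t + 1) (n - b) (stepH M c) := by
  rw [transCNF_sat] at hv
  set τ : Tops Γ b := fun k j => (c.stk k)[(j : ℕ)]? with hτ
  have htop : topA τ = fun k => (c.stk k).take b := by
    funext k
    exact reduceOption_ofFn_getElem? _ _
  have hmem : ∀ d ∈ templ M code ((c.l, c.var), τ), d ∈ templs M b code := by
    intro d hd
    rw [templs, List.mem_flatMap]
    exact ⟨_, by simp, hd⟩
  rw [stepH_eq M b hb c]
  refine ⟨?_, ?_⟩
  · have h1 := hv t htT 0 hH _ (hmem _ (List.mem_cons_self))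
    simp only [List.map_append, List.map_cons, List.map_nil] at h1
    rw [satC_append] at h1
    rcases h1 with h1 | h1
    · exact absurd h1 (not_satC_prem b code h hbn)
    · rw [satC_singleton] at h1
      simp only [ltInst, Nat.zero_mul, Nat.add_zero, htop] at h1
      exact h1
  · intro k i hi
    simp only
    by_cases hlt : i < ((nxt M (c.l, c.var) (topA τ)).stk k).length
    · have h1 := hv t htT 0 hH _ (hmem (prem code (c.l, c.var) τ ++
          [(1, 0, i, code (.inr ⟨k, ((nxt M (c.l, c.var) (topA τ)).stk k)[i]?⟩), true)]) (by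
        simp only [templ]
        apply List.mem_cons_of_mem
        rw [List.mem_append]
        left
        rw [List.mem_flatMap]
        exact ⟨k, by simp, List.mem_map.2 ⟨i, List.mem_range.2 hlt, rfl⟩⟩))
      simp only [List.map_append, List.map_cons, List.map_nil] at h1
      rw [satC_append] at h1
      rcases h1 with h1 | h1
      · exact absurd h1 (not_satC_prem b code h hbn)
      · rw [satC_singleton] at h1
        simp only [ltInst, Nat.zero_mul, Nat.zero_add] at h1
        rw [htop] at h1 hlt
        rw [List.getElem?_append_left hlt]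
        exact h1
    · push Not at hlt
      obtain ⟨i₀, rfl⟩ := Nat.exists_eq_add_of_le hlt
      have h1 := hv t htT i₀ (by omega) _ (hmem (prem code (c.l, c.var) τ ++
          [(0, 1, b, code (.inr ⟨k, (c.stk k)[b + i₀]?⟩), false),
            (1, 1, ((nxt M (c.l, c.var) (topA τ)).stk k).length,
              code (.inr ⟨k, (c.stk k)[b + i₀]?⟩), true)]) (by
        simp only [templ]
        apply List.mem_cons_of_mem
        rw [List.mem_append]
        right
        rw [List.mem_map]
        exact ⟨⟨k, (c.stk k)[b + i₀]?⟩, by simp, rfl⟩))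
      simp only [List.map_append, List.map_cons, List.map_nil] at h1
      rw [satC_append, satC_cons, satC_singleton] at h1
      rcases h1 with h1 | h1 | h1
      · exact absurd h1 (not_satC_prem b code h hbn)
      · exfalso
        have h2 := h.2 k (b + i₀) (by omega)
        simp only [ltInst, Nat.one_mul, Nat.add_zero] at h1
        rw [Nat.add_comm i₀ b, h2] at h1
        simp at h1
      · simp only [ltInst, Nat.one_mul] at h1
        rw [htop] at h1 hlt ⊢
        rw [List.getElem?_append_right (by omega), List.getElem?_drop]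
        rw [Nat.add_comm i₀] at h1
        rw [show b + ((((nxt M (c.l, c.var) fun k => (c.stk k).take b).stk k).length + i₀) -
          ((nxt M (c.l, c.var) fun k => (c.stk k).take b).stk k).length) = b + i₀ by omega]
        exact h1

/-- The fact of kind `κ` at position `i` holds in `c`. -/
def Holds (c : TM2.Cfg Γ Λ σ) (i : ℕ) : Kind Γ Λ σ → Prop
  | .inl q => i = 0 ∧ q = (c.l, c.var)
  | .inr y => (c.stk y.1)[i]? = y.2

open Classical in
/-- The valuation describing a sequence of configurations. -/
noncomputable def valOf (C : ℕ → TM2.Cfg Γ Λ σ) (n : ℕ) : Bool :=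
  decide (∃ κ, code κ = n.unpair.2.unpair.2 ∧ Holds (C n.unpair.1) n.unpair.2.unpair.1 κ)

theorem valOf_vn (hcode : Function.Injective code) (C : ℕ → TM2.Cfg Γ Λ σ) (t i : ℕ)
    (κ : Kind Γ Λ σ) : valOf code C (vn t i (code κ)) = true ↔ Holds (C t) i κ := by
  simp only [valOf, vn, Nat.unpair_pair, decide_eq_true_eq]
  constructor
  · rintro ⟨κ', h1, h2⟩
    rwa [← hcode h1]
  · intro h
    exact ⟨κ, rfl, h⟩

theorem valOf_vn_false (hcode : Function.Injective code) (C : ℕ → TM2.Cfg Γ Λ σ) (t i : ℕ)
    (κ : Kind Γ Λ σ) : valOf code C (vn t i (code κ)) = false ↔ ¬ Holds (C t) i κ := by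
  rw [← valOf_vn code hcode C t i κ]
  simp

theorem sound_step (hcode : Function.Injective code) (hb : ∀ l, npop (M l) ≤ b)
    (C : ℕ → TM2.Cfg Γ Λ σ) (hC : ∀ t, C (t + 1) = stepH M (C t)) (T H : ℕ) :
    ∀ c ∈ transCNF (templs M b code) T H, SatC (valOf code C) c := by
  rw [transCNF_sat]
  intro t _ i _ d hd
  rw [templs, List.mem_flatMap] at hd
  obtain ⟨⟨q, τ⟩, -, hd⟩ := hd
  -- if a premise fails, the clause is satisfied
  by_cases hp : SatC (valOf code C) ((prem code q τ).map (ltInst t i))
  · simp only [templ, List.mem_cons, List.mem_append, List.mem_flatMap, List.mem_map] at hd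
    rcases hd with rfl | ⟨k, -, j, -, rfl⟩ | ⟨y, -, rfl⟩ <;>
    · rw [List.map_append, satC_append]
      exact Or.inl hp
  · have hq : q = ((C t).l, (C t).var) := by
      by_contra hne
      apply hp
      rw [prem, List.map_cons, satC_cons]
      left
      simp only [ltInst, Nat.zero_mul, Nat.add_zero]
      rw [valOf_vn_false code hcode]
      rintro ⟨-, h⟩
      exact hne h
    have hτ : τ = fun k (j : Fin b) => ((C t).stk k)[(j : ℕ)]? := by
      funext k j
      by_contra hne
      apply hp
      rw [prem, List.map_cons, satC_cons]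
      right
      refine ⟨ltInst t i (0, 0, j.val, code (.inr ⟨k, τ k j⟩), false), ?_, ?_⟩
      · rw [List.mem_map]
        refine ⟨_, ?_, rfl⟩
        rw [List.mem_map]
        exact ⟨(k, j), by simp, rfl⟩
      · simp only [ltInst, Nat.zero_mul, Nat.zero_add, Nat.add_zero]
        rw [valOf_vn_false code hcode]
        intro h
        exact hne h.symm
    have htop : topA τ = fun k => ((C t).stk k).take b := by
      funext k
      rw [hτ]
      exact reduceOption_ofFn_getElem? _ _
    have hnext := stepH_eq M b hb (C t)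
    rw [← hC t, ← hq, ← htop] at hnext
    simp only [templ, List.mem_cons, List.mem_append, List.mem_flatMap, List.mem_map] at hd
    rcases hd with rfl | ⟨k, -, j, hj, rfl⟩ | ⟨y, -, rfl⟩
    · rw [List.map_append, satC_append]
      right
      simp only [List.map_cons, List.map_nil]
      rw [satC_singleton]
      simp only [ltInst, Nat.zero_mul, Nat.add_zero]
      rw [valOf_vn code hcode]
      refine ⟨rfl, ?_⟩
      rw [hnext]
    · rw [List.map_append, satC_append]
      right
      simp only [List.map_cons, List.map_nil]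
      rw [satC_singleton]
      simp only [ltInst, Nat.zero_mul, Nat.zero_add]
      rw [valOf_vn code hcode]
      show ((C (t + 1)).stk k)[j]? = _
      rw [hnext]
      simp only
      rw [List.getElem?_append_left (List.mem_range.1 hj)]
    · rw [List.map_append, satC_append]
      right
      simp only [List.map_cons, List.map_nil]
      rw [satC_cons, satC_singleton]
      simp only [ltInst, Nat.one_mul, Nat.add_zero]
      rw [valOf_vn code hcode, valOf_vn_false code hcode]
      by_cases hy : Holds (C t) (i + b) (.inr y)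
      · right
        show ((C (t + 1)).stk y.1)[_]? = _
        rw [hnext]
        simp only
        rw [List.getElem?_append_right (by omega), List.getElem?_drop,
          show b + (i + ((nxt M q (topA τ)).stk y.1).length -
            ((nxt M q (topA τ)).stk y.1).length) = i + b by omega]
        exact hy
      · exact Or.inl hy

end Machine

end Pool.Agent.Work.TMLib
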