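import Mathlib.Computability.TuringMachine.Computable
import Mathlib.Tactic

/-!
Fragments of Mathlib `TM2` machines with one entry and one exit, and their composition.
-/

namespace Pool.Agent.Work.TMLib

set_option linter.constructorNameAsVariable false

open Turing

/-- Symbols of the working stacks: `n` (leaf), `c` (inner node), `h` (marker). -/
inductive Sy | n | c | h
deriving DecidableEq, Fintype

/-- The stacks: input, output, main, and three auxiliary stacks. -/
inductive Stk | inp | out | m | a | b | k
deriving DecidableEq, Fintype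

/-- Alphabets of the stacks. -/
@[reducible] def Gam (A B : Type) : Stk → Type
  | .inp => A
  | .out => B
  | .m => Sy
  | .a => Sy
  | .b => Sy
  | .k => Sy

/-- The finite control register. -/
abbrev Reg (A : Type) := Option (Sy ⊕ A)

/-- Contents of all stacks. -/
structure SS (A B : Type) where
  inp : List A
  out : List B
  m : List Sy
  a : List Sy
  b : List Sy
  k : List Sy

variable {A B : Type}

/-- The stack contents as a dependent function. -/
def SS.fn (s : SS A B) : ∀ x, List (Gam A B x)
  | .inp => s.inp
  | .out => s.out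
  | .m => s.m
  | .a => s.a
  | .b => s.b
  | .k => s.k

@[simp] theorem SS.fn_inp (s : SS A B) : s.fn .inp = s.inp := rfl
@[simp] theorem SS.fn_out (s : SS A B) : s.fn .out = s.out := rfl
@[simp] theorem SS.fn_m (s : SS A B) : s.fn .m = s.m := rfl
@[simp] theorem SS.fn_a (s : SS A B) : s.fn .a = s.a := rfl
@[simp] theorem SS.fn_b (s : SS A B) : s.fn .b = s.b := rfl
@[simp] theorem SS.fn_k (s : SS A B) : s.fn .k = s.k := rfl

@[simp] theorem SS.update_inp (s : SS A B) (x) :
    Function.update s.fn .inp x = ({s with inp := x} : SS A B).fn := by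
  funext i; cases i <;> rfl
@[simp] theorem SS.update_out (s : SS A B) (x) :
    Function.update s.fn .out x = ({s with out := x} : SS A B).fn := by
  funext i; cases i <;> rfl
@[simp] theorem SS.update_m (s : SS A B) (x) :
    Function.update s.fn .m x = ({s with m := x} : SS A B).fn := by
  funext i; cases i <;> rfl
@[simp] theorem SS.update_a (s : SS A B) (x) :
    Function.update s.fn .a x = ({s with a := x} : SS A B).fn := by
  funext i; cases i <;> rfl
@[simp] theorem SS.update_b (s : SS A B) (x) :
    Function.update s.fn .b x = ({s with b := x} : SS A B).fn := by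
  funext i; cases i <;> rfl
@[simp] theorem SS.update_k (s : SS A B) (x) :
    Function.update s.fn .k x = ({s with k := x} : SS A B).fn := by
  funext i; cases i <;> rfl

/-- Statements over labels `L`. -/
abbrev Stm (A B L : Type) := TM2.Stmt (Gam A B) L (Reg A)

abbrev Cf (A B L : Type) := TM2.Cfg (Gam A B) L (Reg A)

/-- `RN M n c c'`: the machine `M` goes from `c` to `c'` in exactly `n` steps. -/
inductive RN {L : Type} (M : L → Stm A B L) : ℕ → Cf A B L → Cf A B L → Prop
  | refl (c) : RN M 0 c c
  | step {n c c' c''} : TM2.step M c = some c' → RN M n c' c'' → RN M (n+1) c c''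

theorem RN.trans {L : Type} {M : L → Stm A B L} {n m : ℕ} {c c' c''}
    (h : RN M n c c') (h' : RN M m c' c'') : RN M (n+m) c c'' := by
  induction h with
  | refl => simpa using h'
  | step hs _ ih =>
    have := RN.step hs (ih h')
    rwa [Nat.add_right_comm] at this

theorem RN.single {L : Type} {M : L → Stm A B L} {c c'}
    (h : TM2.step M c = some c') : RN M 1 c c' := RN.step h (RN.refl _)

/-- Renaming of labels in a statement. -/
def mapL {L L' : Type} (g : L → L') : Stm A B L → Stm A B L'
  | .push k f q => .push k f (mapL g q)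
  | .peek k f q => .peek k f (mapL g q)
  | .pop k f q => .pop k f (mapL g q)
  | .load f q => .load f (mapL g q)
  | .branch f q₁ q₂ => .branch f (mapL g q₁) (mapL g q₂)
  | .goto f => .goto (fun v => g (f v))
  | .halt => .halt

@[simp] theorem mapL_push {L L' : Type} (g : L → L') (k f) (q : Stm A B L) :
    mapL g (.push k f q) = .push k f (mapL g q) := rfl
@[simp] theorem mapL_peek {L L' : Type} (g : L → L') (k f) (q : Stm A B L) :
    mapL g (.peek k f q) = .peek k f (mapL g q) := rfl
@[simp] theorem mapL_pop {L L' : Type} (g : L → L') (k f) (q : Stm A B L) :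
    mapL g (.pop k f q) = .pop k f (mapL g q) := rfl
@[simp] theorem mapL_load {L L' : Type} (g : L → L') (f) (q : Stm A B L) :
    mapL g (.load f q) = .load f (mapL g q) := rfl
@[simp] theorem mapL_branch {L L' : Type} (g : L → L') (f) (q q' : Stm A B L) :
    mapL g (.branch f q q') = .branch f (mapL g q) (mapL g q') := rfl
@[simp] theorem mapL_goto {L L' : Type} (g : L → L') (f) :
    mapL g (.goto f : Stm A B L) = .goto (fun v => g (f v)) := rfl
@[simp] theorem mapL_halt {L L' : Type} (g : L → L') :
    mapL g (.halt : Stm A B L) = .halt := rfl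

theorem mapL_mapL {L L' L'' : Type} (g : L → L') (g' : L' → L'') (q : Stm A B L) :
    mapL g' (mapL g q) = mapL (fun x => g' (g x)) q := by
  induction q with
  | push k f q ih => simp [ih]
  | peek k f q ih => simp [ih]
  | pop k f q ih => simp [ih]
  | load f q ih => simp [ih]
  | branch f q₁ q₂ ih₁ ih₂ => simp [ih₁, ih₂]
  | goto f => simp
  | halt => simp

theorem mapL_congr {L L' : Type} {g g' : L → L'} (h : ∀ l, g l = g' l) (q : Stm A B L) :
    mapL g q = mapL g' q := by
  rw [show g = g' from funext h]

/-- A program fragment with one entry and one exit (the exit is the label `none`). -/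
structure Code (A B : Type) where
  L : Type
  fin : Fintype L
  entry : L
  m : L → Stm A B (Option L)

/-- The fragment `c` is embedded in the machine `M` via `e`, with exit label `x`. -/
def Emb (c : Code A B) {L' : Type} (M : L' → Stm A B L') (e : c.L → L') (x : L') : Prop :=
  ∀ l, M (e l) = mapL (fun o => Option.elim o x e) (c.m l)

/-- `Does c t s s'`: the fragment `c`, started at its entry with stacks `s` reaches its exit with
stacks `s'` in at most `t` steps, in whatever machine it is embedded. -/
def Does (c : Code A B) (t : ℕ) (s s' : SS A B) : Prop :=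
  ∀ (L' : Type) (M : L' → Stm A B L') (e : c.L → L') (x : L'), Emb c M e x →
    ∃ t' ≤ t, RN M t' ⟨some (e c.entry), none, s.fn⟩ ⟨some x, none, s'.fn⟩

theorem Does.mono {c : Code A B} {t t' : ℕ} {s s' : SS A B} (h : Does c t s s') (ht : t ≤ t') :
    Does c t' s s' := by
  intro L' M e x hE
  obtain ⟨n, hn, hr⟩ := h L' M e x hE
  exact ⟨n, hn.trans ht, hr⟩

/-- Sequential composition. -/
def Code.seq (c₁ c₂ : Code A B) : Code A B where
  L := c₁.L ⊕ c₂.L
  fin := by
    haveI := c₁.fin
    haveI := c₂.fin
    infer_instance
  entry := .inl c₁.entry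
  m
  | .inl l => mapL (fun o => Option.elim o (some (.inr c₂.entry)) (fun y => some (.inl y))) (c₁.m l)
  | .inr l => mapL (Option.map .inr) (c₂.m l)

theorem Does.seq {c₁ c₂ : Code A B} {t₁ t₂ : ℕ} {s s' s'' : SS A B} (h₁ : Does c₁ t₁ s s')
    (h₂ : Does c₂ t₂ s' s'') : Does (c₁.seq c₂) (t₁ + t₂) s s'' := by
  intro L' M e x hE
  obtain ⟨n₁, hn₁, hr₁⟩ := h₁ L' M (fun l => e (.inl l)) (e (.inr c₂.entry)) (by
    intro l
    rw [hE (.inl l)]
    show mapL _ (mapL _ _) = _
    rw [mapL_mapL]
    apply mapL_congr
    intro o
    cases o <;> rfl)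
  obtain ⟨n₂, hn₂, hr₂⟩ := h₂ L' M (fun l => e (.inr l)) x (by
    intro l
    rw [hE (.inr l)]
    show mapL _ (mapL _ _) = _
    rw [mapL_mapL]
    apply mapL_congr
    intro o
    cases o <;> rfl)
  exact ⟨n₁ + n₂, by omega, hr₁.trans hr₂⟩

/-- The one-step fragment given by a straight-line statement. -/
def Code.one (s : Stm A B (Option Unit)) : Code A B where
  L := Unit
  fin := inferInstance
  entry := ()
  m := fun _ => s

/-- The empty fragment. -/
def Code.skip : Code A B := Code.one (.goto fun _ => none)

theorem Does.skip (s : SS A B) : Does (Code.skip : Code A B) 1 s s := by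
  intro L' M e x hE
  refine ⟨1, le_rfl, RN.single ?_⟩
  have := hE ()
  simp only [TM2.step.eq_2]
  simp [Code.skip, Code.one] at this ⊢
  rw [this]
  rfl

/-- Binary trees, the universal data type. -/
inductive D | nil | cons (a b : D)
deriving DecidableEq

namespace D
/-- Preorder string of a tree. -/
def enc : D → List Sy
  | nil => [Sy.n]
  | cons a b => Sy.c :: (a.enc ++ b.enc)

/-- Size of a tree: number of nodes. -/
def size : D → ℕ
  | nil => 1
  | cons a b => a.size + b.size + 1

@[simp] theorem enc_nil : enc nil = [Sy.n] := rfl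
@[simp] theorem enc_cons (a b : D) : enc (cons a b) = Sy.c :: (a.enc ++ b.enc) := rfl
@[simp] theorem size_nil : size nil = 1 := rfl
@[simp] theorem size_cons (a b : D) : size (cons a b) = a.size + b.size + 1 := rfl

@[simp] theorem length_enc (x : D) : x.enc.length = x.size := by
  induction x with
  | nil => rfl
  | cons a b ha hb => simp [ha, hb]

theorem size_pos (x : D) : 0 < x.size := by cases x <;> simp
end D

/-- Tests on the register. -/
def isN : Reg A → Bool
  | some (.inl Sy.n) => true
  | _ => false
def isC : Reg A → Bool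
  | some (.inl Sy.c) => true
  | _ => false
def isH : Reg A → Bool
  | some (.inl Sy.h) => true
  | _ => false
def getS : Reg A → Sy
  | some (.inl y) => y
  | _ => Sy.n

@[simp] theorem isN_n : isN (some (.inl Sy.n) : Reg A) = true := rfl
@[simp] theorem isN_c : isN (some (.inl Sy.c) : Reg A) = false := rfl
@[simp] theorem isN_h : isN (some (.inl Sy.h) : Reg A) = false := rfl
@[simp] theorem isN_none : isN (none : Reg A) = false := rfl
@[simp] theorem isC_n : isC (some (.inl Sy.n) : Reg A) = false := rfl
@[simp] theorem isC_c : isC (some (.inl Sy.c) : Reg A) = true := rfl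
@[simp] theorem isC_h : isC (some (.inl Sy.h) : Reg A) = false := rfl
@[simp] theorem isC_none : isC (none : Reg A) = false := rfl
@[simp] theorem isH_n : isH (some (.inl Sy.n) : Reg A) = false := rfl
@[simp] theorem isH_c : isH (some (.inl Sy.c) : Reg A) = false := rfl
@[simp] theorem isH_h : isH (some (.inl Sy.h) : Reg A) = true := rfl
@[simp] theorem isH_none : isH (none : Reg A) = false := rfl
@[simp] theorem getS_some (y : Sy) : getS (some (.inl y) : Reg A) = y := rfl

/-- Two labels: start and loop. -/
inductive L2 | s | l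
deriving DecidableEq, Fintype

open TM2.Stmt in
/-- Move one tree from `m` to `a` (reversed, above a marker). -/
def tA : Code A B where
  L := L2
  fin := inferInstance
  entry := .s
  m
  | .s => push .a (fun _ => Sy.h) <| push .k (fun _ => Sy.h) <| push .k (fun _ => Sy.n) <|
      goto fun _ => some .l
  | .l => pop .k (fun _ o => o.map Sum.inl) <|
      branch isN
        (pop .m (fun _ o => o.map Sum.inl) <| push .a getS <| branch isC
          (push .k (fun _ => Sy.n) <| push .k (fun _ => Sy.n) <| load (fun _ => none) <|
            goto fun _ => some .l)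
          (load (fun _ => none) <| goto fun _ => some .l))
        (load (fun _ => none) <| goto fun _ => none)

/-- Concatenated preorder strings. -/
def encs (xs : List D) : List Sy := xs.flatMap D.enc

@[simp] theorem encs_nil : encs [] = [] := rfl
@[simp] theorem encs_cons (x : D) (xs : List D) : encs (x :: xs) = x.enc ++ encs xs := by
  simp [encs]

theorem tA_loop {L' : Type} {M : L' → Stm A B L'} {e : L2 → L'} {x : L'}
    (hE : Emb (tA : Code A B) M e x) (N : ℕ) (xs : List D) (hN : (encs xs).length = N)
    (s : SS A B) (r a0 k0 : List Sy) :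
    RN M (N + 1)
      ⟨some (e .l), none, ({s with m := encs xs ++ r, a := a0, k := List.replicate xs.length Sy.n ++ Sy.h :: k0} : SS A B).fn⟩
      ⟨some x, none, ({s with m := r, a := (encs xs).reverse ++ a0, k := k0} : SS A B).fn⟩ := by
  induction N using Nat.strong_induction_on generalizing xs a0 with
  | _ N ih =>
  match xs with
  | [] =>
    simp at hN
    subst hN
    apply RN.single
    simp only [TM2.step.eq_2, hE L2.l]
    simp [tA]
  | .nil :: xs =>
    simp at hN
    obtain ⟨N', rfl⟩ : ∃ N', N = N' + 1 := ⟨N - 1, by omega⟩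
    refine RN.step ?_ (by
      simpa using ih N' (by omega) xs (by omega) (Sy.n :: a0))
    simp only [TM2.step.eq_2, hE L2.l]
    simp [tA, List.replicate_succ]
  | .cons p q :: xs =>
    simp at hN
    obtain ⟨N', rfl⟩ : ∃ N', N = N' + 1 := ⟨N - 1, by omega⟩
    refine RN.step ?_ (by
      simpa using ih N' (by omega) (p :: q :: xs) (by simp; omega) (Sy.c :: a0))
    simp only [TM2.step.eq_2, hE L2.l]
    simp [tA, List.replicate_succ]

theorem Does.tA (s : SS A B) (x : D) (r : List Sy) :
    Does (tA : Code A B) (x.size + 2) {s with m := x.enc ++ r}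
      {s with m := r, a := x.enc.reverse ++ Sy.h :: s.a} := by
  intro L' M e y hE
  refine ⟨x.size + 2, le_rfl, ?_⟩
  refine RN.step ?_ (by
    simpa using tA_loop hE x.size [x] (by simp) s r (Sy.h :: s.a) s.k)
  simp only [TM2.step.eq_2]
  erw [hE L2.s]
  simp [TMLib.tA]

open TM2.Stmt in
/-- Move one tree from `m` to `b` (reversed, above a marker). -/
def tB : Code A B where
  L := L2
  fin := inferInstance
  entry := .s
  m
  | .s => push .b (fun _ => Sy.h) <| push .k (fun _ => Sy.h) <| push .k (fun _ => Sy.n) <|
      goto fun _ => some .l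
  | .l => pop .k (fun _ o => o.map Sum.inl) <|
      branch isN
        (pop .m (fun _ o => o.map Sum.inl) <| push .b getS <| branch isC
          (push .k (fun _ => Sy.n) <| push .k (fun _ => Sy.n) <| load (fun _ => none) <|
            goto fun _ => some .l)
          (load (fun _ => none) <| goto fun _ => some .l))
        (load (fun _ => none) <| goto fun _ => none)

theorem tB_loop {L' : Type} {M : L' → Stm A B L'} {e : L2 → L'} {x : L'}
    (hE : Emb (tB : Code A B) M e x) (N : ℕ) (xs : List D) (hN : (encs xs).length = N)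
    (s : SS A B) (r a0 k0 : List Sy) :
    RN M (N + 1)
      ⟨some (e .l), none, ({s with m := encs xs ++ r, b := a0, k := List.replicate xs.length Sy.n ++ Sy.h :: k0} : SS A B).fn⟩
      ⟨some x, none, ({s with m := r, b := (encs xs).reverse ++ a0, k := k0} : SS A B).fn⟩ := by
  induction N using Nat.strong_induction_on generalizing xs a0 with
  | _ N ih =>
  match xs with
  | [] =>
    simp at hN
    subst hN
    apply RN.single
    simp only [TM2.step.eq_2, hE L2.l]
    simp [tB]
  | .nil :: xs =>
    simp at hN
    obtain ⟨N', rfl⟩ : ∃ N', N = N' + 1 := ⟨N - 1, by omega⟩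
    refine RN.step ?_ (by
      simpa using ih N' (by omega) xs (by omega) (Sy.n :: a0))
    simp only [TM2.step.eq_2, hE L2.l]
    simp [tB, List.replicate_succ]
  | .cons p q :: xs =>
    simp at hN
    obtain ⟨N', rfl⟩ : ∃ N', N = N' + 1 := ⟨N - 1, by omega⟩
    refine RN.step ?_ (by
      simpa using ih N' (by omega) (p :: q :: xs) (by simp; omega) (Sy.c :: a0))
    simp only [TM2.step.eq_2, hE L2.l]
    simp [tB, List.replicate_succ]

theorem Does.tB (s : SS A B) (x : D) (r : List Sy) :
    Does (tB : Code A B) (x.size + 2) {s with m := x.enc ++ r}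
      {s with m := r, b := x.enc.reverse ++ Sy.h :: s.b} := by
  intro L' M e y hE
  refine ⟨x.size + 2, le_rfl, ?_⟩
  refine RN.step ?_ (by
    simpa using tB_loop hE x.size [x] (by simp) s r (Sy.h :: s.b) s.k)
  simp only [TM2.step.eq_2]
  erw [hE L2.s]
  simp [TMLib.tB]

/-- No marker in a string. -/
def NoH (w : List Sy) : Prop := ∀ y ∈ w, y ≠ Sy.h

theorem noH_enc (x : D) : NoH x.enc := by
  induction x with
  | nil => intro y hy; simp at hy; simp [hy]
  | cons a b ha hb =>
    intro y hy
    simp at hy
    rcases hy with h | h | h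
    · simp [h]
    · exact ha y h
    · exact hb y h

theorem NoH.reverse {w : List Sy} (h : NoH w) : NoH w.reverse := by
  intro y hy; exact h y (by simpa using hy)

open TM2.Stmt in
/-- Move from `a` to `m` until the marker (which is removed). -/
def uA : Code A B where
  L := Unit
  fin := inferInstance
  entry := ()
  m := fun _ => pop .a (fun _ o => o.map Sum.inl) <| branch isH
    (load (fun _ => none) <| goto fun _ => none)
    (push .m getS <| load (fun _ => none) <| goto fun _ => some ())

theorem uA_loop {L' : Type} {M : L' → Stm A B L'} {e : Unit → L'} {x : L'}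
    (hE : Emb (uA : Code A B) M e x) (w : List Sy) (hw : NoH w)
    (s : SS A B) (a0 m0 : List Sy) :
    RN M (w.length + 1)
      ⟨some (e ()), none, ({s with a := w ++ Sy.h :: a0, m := m0} : SS A B).fn⟩
      ⟨some x, none, ({s with m := w.reverse ++ m0, a := a0} : SS A B).fn⟩ := by
  induction w generalizing m0 with
  | nil =>
    apply RN.single
    simp only [TM2.step.eq_2, hE ()]
    simp [uA]
  | cons y w ih =>
    have hy : y ≠ Sy.h := hw y (by simp)
    refine RN.step ?_ (by
      simpa using ih (fun z hz => hw z (by simp [hz])) (y :: m0))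
    simp only [TM2.step.eq_2, hE ()]
    cases y <;> simp_all [uA]

theorem Does.uA (s : SS A B) (w : List Sy) (hw : NoH w) (r : List Sy) :
    Does (uA : Code A B) (w.length + 1) {s with a := w ++ Sy.h :: r}
      {s with m := w.reverse ++ s.m, a := r} := by
  intro L' M e y hE
  exact ⟨w.length + 1, le_rfl, uA_loop hE w hw s r s.m⟩

open TM2.Stmt in
/-- Move from `b` to `m` until the marker (which is removed). -/
def uB : Code A B where
  L := Unit
  fin := inferInstance
  entry := ()
  m := fun _ => pop .b (fun _ o => o.map Sum.inl) <| branch isH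
    (load (fun _ => none) <| goto fun _ => none)
    (push .m getS <| load (fun _ => none) <| goto fun _ => some ())

theorem uB_loop {L' : Type} {M : L' → Stm A B L'} {e : Unit → L'} {x : L'}
    (hE : Emb (uB : Code A B) M e x) (w : List Sy) (hw : NoH w)
    (s : SS A B) (a0 m0 : List Sy) :
    RN M (w.length + 1)
      ⟨some (e ()), none, ({s with b := w ++ Sy.h :: a0, m := m0} : SS A B).fn⟩
      ⟨some x, none, ({s with m := w.reverse ++ m0, b := a0} : SS A B).fn⟩ := by
  induction w generalizing m0 with
  | nil =>
    apply RN.single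
    simp only [TM2.step.eq_2, hE ()]
    simp [uB]
  | cons y w ih =>
    have hy : y ≠ Sy.h := hw y (by simp)
    refine RN.step ?_ (by
      simpa using ih (fun z hz => hw z (by simp [hz])) (y :: m0))
    simp only [TM2.step.eq_2, hE ()]
    cases y <;> simp_all [uB]

theorem Does.uB (s : SS A B) (w : List Sy) (hw : NoH w) (r : List Sy) :
    Does (uB : Code A B) (w.length + 1) {s with b := w ++ Sy.h :: r}
      {s with m := w.reverse ++ s.m, b := r} := by
  intro L' M e y hE
  exact ⟨w.length + 1, le_rfl, uB_loop hE w hw s r s.m⟩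

open TM2.Stmt in
/-- Move from `a` to `m` and to `b` until the marker; a marker is first pushed on `b`. -/
def cAB : Code A B where
  L := L2
  fin := inferInstance
  entry := .s
  m
  | .s => push .b (fun _ => Sy.h) <| goto fun _ => some .l
  | .l => pop .a (fun _ o => o.map Sum.inl) <| branch isH
    (load (fun _ => none) <| goto fun _ => none)
    (push .m getS <| push .b getS <| load (fun _ => none) <| goto fun _ => some .l)

theorem cAB_loop {L' : Type} {M : L' → Stm A B L'} {e : L2 → L'} {x : L'}
    (hE : Emb (cAB : Code A B) M e x) (w : List Sy) (hw : NoH w)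
    (s : SS A B) (a0 m0 b0 : List Sy) :
    RN M (w.length + 1)
      ⟨some (e .l), none, ({s with a := w ++ Sy.h :: a0, m := m0, b := b0} : SS A B).fn⟩
      ⟨some x, none, ({s with m := w.reverse ++ m0, a := a0, b := w.reverse ++ b0} : SS A B).fn⟩ := by
  induction w generalizing m0 b0 with
  | nil =>
    apply RN.single
    simp only [TM2.step.eq_2, hE L2.l]
    simp [cAB]
  | cons y w ih =>
    have hy : y ≠ Sy.h := hw y (by simp)
    refine RN.step ?_ (by
      simpa using ih (fun z hz => hw z (by simp [hz])) (y :: m0) (y :: b0))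
    simp only [TM2.step.eq_2, hE L2.l]
    cases y <;> simp_all [cAB]

theorem Does.cAB (s : SS A B) (w : List Sy) (hw : NoH w) (r : List Sy) :
    Does (cAB : Code A B) (w.length + 2) {s with a := w ++ Sy.h :: r}
      {s with m := w.reverse ++ s.m, a := r, b := w.reverse ++ Sy.h :: s.b} := by
  intro L' M e y hE
  refine ⟨w.length + 2, le_rfl, ?_⟩
  refine RN.step ?_ (cAB_loop hE w hw s r s.m (Sy.h :: s.b))
  simp only [TM2.step.eq_2]
  erw [hE L2.s]
  simp [TMLib.cAB]

open TM2.Stmt in
/-- Move from `b` to `a` until the marker; a marker is first pushed on `a`. -/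
def vBA : Code A B where
  L := L2
  fin := inferInstance
  entry := .s
  m
  | .s => push .a (fun _ => Sy.h) <| goto fun _ => some .l
  | .l => pop .b (fun _ o => o.map Sum.inl) <| branch isH
    (load (fun _ => none) <| goto fun _ => none)
    (push .a getS <| load (fun _ => none) <| goto fun _ => some .l)

theorem vBA_loop {L' : Type} {M : L' → Stm A B L'} {e : L2 → L'} {x : L'}
    (hE : Emb (vBA : Code A B) M e x) (w : List Sy) (hw : NoH w)
    (s : SS A B) (a0 b0 : List Sy) :
    RN M (w.length + 1)
      ⟨some (e .l), none, ({s with b := w ++ Sy.h :: b0, a := a0} : SS A B).fn⟩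
      ⟨some x, none, ({s with a := w.reverse ++ a0, b := b0} : SS A B).fn⟩ := by
  induction w generalizing a0 with
  | nil =>
    apply RN.single
    simp only [TM2.step.eq_2, hE L2.l]
    simp [vBA]
  | cons y w ih =>
    have hy : y ≠ Sy.h := hw y (by simp)
    refine RN.step ?_ (by
      simpa using ih (fun z hz => hw z (by simp [hz])) (y :: a0))
    simp only [TM2.step.eq_2, hE L2.l]
    cases y <;> simp_all [vBA]

theorem Does.vBA (s : SS A B) (w : List Sy) (hw : NoH w) (r : List Sy) :
    Does (vBA : Code A B) (w.length + 2) {s with b := w ++ Sy.h :: r}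
      {s with a := w.reverse ++ Sy.h :: s.a, b := r} := by
  intro L' M e y hE
  refine ⟨w.length + 2, le_rfl, ?_⟩
  refine RN.step ?_ (vBA_loop hE w hw s (Sy.h :: s.a) r)
  simp only [TM2.step.eq_2]
  erw [hE L2.s]
  simp [TMLib.vBA]

open TM2.Stmt in
/-- Remove one tree from `m`. -/
def dropM : Code A B where
  L := L2
  fin := inferInstance
  entry := .s
  m
  | .s => push .k (fun _ => Sy.h) <| push .k (fun _ => Sy.n) <|
      goto fun _ => some .l
  | .l => pop .k (fun _ o => o.map Sum.inl) <|
      branch isN
        (pop .m (fun _ o => o.map Sum.inl) <| branch isC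
          (push .k (fun _ => Sy.n) <| push .k (fun _ => Sy.n) <| load (fun _ => none) <|
            goto fun _ => some .l)
          (load (fun _ => none) <| goto fun _ => some .l))
        (load (fun _ => none) <| goto fun _ => none)

theorem dropM_loop {L' : Type} {M : L' → Stm A B L'} {e : L2 → L'} {x : L'}
    (hE : Emb (dropM : Code A B) M e x) (N : ℕ) (xs : List D) (hN : (encs xs).length = N)
    (s : SS A B) (r k0 : List Sy) :
    RN M (N + 1)
      ⟨some (e .l), none, ({s with m := encs xs ++ r, k := List.replicate xs.length Sy.n ++ Sy.h :: k0} : SS A B).fn⟩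
      ⟨some x, none, ({s with m := r, k := k0} : SS A B).fn⟩ := by
  induction N using Nat.strong_induction_on generalizing xs with
  | _ N ih =>
  match xs with
  | [] =>
    simp at hN
    subst hN
    apply RN.single
    simp only [TM2.step.eq_2, hE L2.l]
    simp [dropM]
  | .nil :: xs =>
    simp at hN
    obtain ⟨N', rfl⟩ : ∃ N', N = N' + 1 := ⟨N - 1, by omega⟩
    refine RN.step ?_ (by
      simpa using ih N' (by omega) xs (by omega))
    simp only [TM2.step.eq_2, hE L2.l]
    simp [dropM, List.replicate_succ]
  | .cons p q :: xs =>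
    simp at hN
    obtain ⟨N', rfl⟩ : ∃ N', N = N' + 1 := ⟨N - 1, by omega⟩
    refine RN.step ?_ (by
      simpa using ih N' (by omega) (p :: q :: xs) (by simp; omega))
    simp only [TM2.step.eq_2, hE L2.l]
    simp [dropM, List.replicate_succ]

theorem Does.dropM (s : SS A B) (x : D) (r : List Sy) :
    Does (dropM : Code A B) (x.size + 2) {s with m := x.enc ++ r} {s with m := r} := by
  intro L' M e y hE
  refine ⟨x.size + 2, le_rfl, ?_⟩
  refine RN.step ?_ (by
    simpa using dropM_loop hE x.size [x] (by simp) s r s.k)
  simp only [TM2.step.eq_2]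
  erw [hE L2.s]
  simp [TMLib.dropM]

/-- Exchange the two topmost trees. -/
def swapM : Code A B := tA.seq (tB.seq (uA.seq uB))

theorem Does.swapM (s : SS A B) (x y : D) (r : List Sy) :
    Does (swapM : Code A B) (2 * x.size + 2 * y.size + 6) {s with m := x.enc ++ (y.enc ++ r)}
      {s with m := y.enc ++ (x.enc ++ r)} := by
  have h1 := Does.tA s x (y.enc ++ r)
  have h2 := Does.tB {s with m := y.enc ++ r, a := x.enc.reverse ++ Sy.h :: s.a} y r
  have h3 := Does.uA {s with m := r, b := y.enc.reverse ++ Sy.h :: s.b} x.enc.reverse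
    (noH_enc x).reverse s.a
  have h4 := Does.uB {s with m := x.enc ++ r} y.enc.reverse (noH_enc y).reverse s.b
  simp at h1 h2 h3 h4
  exact (h1.seq (h2.seq (h3.seq h4))).mono (by omega)

/-- Duplicate the topmost tree. -/
def dupM : Code A B := tA.seq (cAB.seq (vBA.seq uA))

theorem Does.dupM (s : SS A B) (x : D) (r : List Sy) :
    Does (dupM : Code A B) (4 * x.size + 7) {s with m := x.enc ++ r}
      {s with m := x.enc ++ (x.enc ++ r)} := by
  have h1 := Does.tA s x r
  have h2 := Does.cAB {s with m := r} x.enc.reverse (noH_enc x).reverse s.a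
  have h3 := Does.vBA {s with m := x.enc ++ r} x.enc (noH_enc x) s.b
  have h4 := Does.uA {s with m := x.enc ++ r} x.enc.reverse (noH_enc x).reverse s.a
  simp at h1 h2 h3 h4
  exact (h1.seq (h2.seq (h3.seq h4))).mono (by omega)

/-- Push one symbol on `m`. -/
def pushM (y : Sy) : Code A B := Code.one (.push .m (fun _ => y) (.goto fun _ => none))

theorem Does.pushM (s : SS A B) (y : Sy) :
    Does (pushM y : Code A B) 1 s {s with m := y :: s.m} := by
  intro L' M e x hE
  refine ⟨1, le_rfl, RN.single ?_⟩
  simp only [TM2.step.eq_2]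
  erw [hE ()]
  simp [TMLib.pushM, Code.one]

/-- Pop the root symbol of the topmost tree, and continue with `c₁` if it is a leaf, with `c₂` if
it is an inner node. -/
def Code.caseM (c₁ c₂ : Code A B) : Code A B where
  L := Unit ⊕ (c₁.L ⊕ c₂.L)
  fin := by
    haveI := c₁.fin
    haveI := c₂.fin
    infer_instance
  entry := .inl ()
  m
  | .inl _ => .pop .m (fun _ o => o.map Sum.inl) <| .branch isC
      (.load (fun _ => none) <| .goto fun _ => some (.inr (.inr c₂.entry)))
      (.load (fun _ => none) <| .goto fun _ => some (.inr (.inl c₁.entry)))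
  | .inr (.inl l) => mapL (Option.map fun y => .inr (.inl y)) (c₁.m l)
  | .inr (.inr l) => mapL (Option.map fun y => .inr (.inr y)) (c₂.m l)

theorem Does.caseM_nil {c₁ c₂ : Code A B} {t : ℕ} {s : SS A B} {r : List Sy} {s' : SS A B}
    (h : Does c₁ t {s with m := r} s') :
    Does (c₁.caseM c₂) (t + 1) {s with m := Sy.n :: r} s' := by
  intro L' M e x hE
  obtain ⟨n, hn, hr⟩ := h L' M (fun l => e (.inr (.inl l))) x (by
    intro l
    rw [hE (.inr (.inl l))]
    show mapL _ (mapL _ _) = _
    rw [mapL_mapL]
    apply mapL_congr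
    intro o
    cases o <;> rfl)
  refine ⟨n + 1, by omega, RN.step ?_ hr⟩
  simp only [TM2.step.eq_2]
  erw [hE (.inl ())]
  simp [Code.caseM]

theorem Does.caseM_cons {c₁ c₂ : Code A B} {t : ℕ} {s : SS A B} {r : List Sy} {s' : SS A B}
    (h : Does c₂ t {s with m := r} s') :
    Does (c₁.caseM c₂) (t + 1) {s with m := Sy.c :: r} s' := by
  intro L' M e x hE
  obtain ⟨n, hn, hr⟩ := h L' M (fun l => e (.inr (.inr l))) x (by
    intro l
    rw [hE (.inr (.inr l))]
    show mapL _ (mapL _ _) = _
    rw [mapL_mapL]
    apply mapL_congr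
    intro o
    cases o <;> rfl)
  refine ⟨n + 1, by omega, RN.step ?_ hr⟩
  simp only [TM2.step.eq_2]
  erw [hE (.inl ())]
  simp [Code.caseM]

/-- Loop: while the topmost tree is `cons (cons _ _) _`, run `c`; leave with the payload. -/
def Code.loopM (c : Code A B) : Code A B where
  L := L2 ⊕ c.L
  fin := by
    haveI := c.fin
    infer_instance
  entry := .inl .s
  m
  | .inl .s => .pop .m (fun _ o => o.map Sum.inl) <| .branch isC
      (.load (fun _ => none) <| .goto fun _ => some (.inl .l))
      (.push .m getS <| .load (fun _ => none) <| .goto fun _ => none)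
  | .inl .l => .pop .m (fun _ o => o.map Sum.inl) <| .branch isC
      (.push .m getS <| .push .m getS <| .load (fun _ => none) <| .goto fun _ => some (.inr c.entry))
      (.load (fun _ => none) <| .goto fun _ => none)
  | .inr l => mapL (fun o => Option.elim o (some (.inl .s)) (fun y => some (.inr y))) (c.m l)

theorem Does.loopM_nil {c : Code A B} {s : SS A B} {r : List Sy} :
    Does c.loopM 1 {s with m := Sy.n :: r} {s with m := Sy.n :: r} := by
  intro L' M e x hE
  refine ⟨1, le_rfl, RN.single ?_⟩
  simp only [TM2.step.eq_2]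
  erw [hE (.inl L2.s)]
  simp [Code.loopM]

theorem Does.loopM_exit {c : Code A B} {s : SS A B} {r : List Sy} :
    Does c.loopM 2 {s with m := Sy.c :: Sy.n :: r} {s with m := r} := by
  intro L' M e x hE
  refine ⟨2, le_rfl, RN.step (c' := ⟨some (e (.inl .l)), none, ({s with m := Sy.n :: r} : SS A B).fn⟩)
    ?_ (RN.single ?_)⟩
  · simp only [TM2.step.eq_2]
    erw [hE (.inl L2.s)]
    simp [Code.loopM]
  · simp only [TM2.step.eq_2]
    erw [hE (.inl L2.l)]
    simp [Code.loopM]

theorem Does.loopM_step {c : Code A B} {t t' : ℕ} {s : SS A B} {r : List Sy} {s' s'' : SS A B}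
    (h : Does c t {s with m := Sy.c :: Sy.c :: r} s')
    (h' : Does c.loopM t' s' s'') :
    Does c.loopM (t + t' + 2) {s with m := Sy.c :: Sy.c :: r} s'' := by
  intro L' M e x hE
  obtain ⟨n, hn, hr⟩ := h L' M (fun l => e (.inr l)) (e (.inl .s)) (by
    intro l
    rw [hE (.inr l)]
    show mapL _ (mapL _ _) = _
    rw [mapL_mapL]
    apply mapL_congr
    intro o
    cases o <;> rfl)
  obtain ⟨n', hn', hr'⟩ := h' L' M e x hE
  refine ⟨n + n' + 1 + 1, by omega, RN.step (c' := ⟨some (e (.inl .l)), none, ({s with m := Sy.c :: r} : SS A B).fn⟩) ?_ (RN.step ?_ (hr.trans hr'))⟩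
  · simp only [TM2.step.eq_2]
    erw [hE (.inl L2.s)]
    simp [Code.loopM]
  · simp only [TM2.step.eq_2]
    erw [hE (.inl L2.l)]
    simp [Code.loopM]

end Pool.Agent.Work.TMLib
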