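import Pool.Agent.Work.TMLib.Machine
import Mathlib.Tactic

/-!
Polynomial-time transformations of binary trees, and closure properties.
-/

namespace Pool.Agent.Work.TMLib

open Turing Polynomial

theorem poly_mono (p : Polynomial ℕ) {a b : ℕ} (h : a ≤ b) : p.eval a ≤ p.eval b := by
  induction p using Polynomial.induction_on' with
  | add p q hp hq => simpa using Nat.add_le_add hp hq
  | monomial n c => simpa using Nat.mul_le_mul_left _ (Nat.pow_le_pow_left h _)

/-- The topmost tree `i a` is replaced by the tree `o a`, in polynomial time, for all `a`. -/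
def PolyG {α : Type} (i o : α → D) : Prop :=
  (∃ q : Polynomial ℕ, ∀ a, (o a).size ≤ q.eval (i a).size) ∧
  ∀ A B : Type, ∃ (c : Code A B) (p : Polynomial ℕ), ∀ (s : SS A B) (a : α) (r : List Sy),
    Does c (p.eval (i a).size) {s with m := (i a).enc ++ r} {s with m := (o a).enc ++ r}

variable {α β σ : Type}

theorem PolyG.refl (i : α → D) : PolyG i i := by
  refine ⟨⟨X, fun x => by simp⟩, fun A B => ⟨Code.skip, 1, fun s x r => ?_⟩⟩
  simpa using Does.skip {s with m := (i x).enc ++ r}

theorem PolyG.trans {i o u : α → D} (hf : PolyG i o) (hg : PolyG o u) : PolyG i u := by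
  obtain ⟨⟨qf, hqf⟩, cf⟩ := hf
  obtain ⟨⟨qg, hqg⟩, cg⟩ := hg
  refine ⟨⟨qg.comp qf, fun x => ?_⟩, fun A B => ?_⟩
  · rw [eval_comp]
    exact (hqg _).trans (poly_mono _ (hqf _))
  · obtain ⟨c, p, h⟩ := cf A B
    obtain ⟨c', p', h'⟩ := cg A B
    refine ⟨c.seq c', p + p'.comp qf, fun s x r => ?_⟩
    rw [eval_add, eval_comp]
    exact (h s x r).seq ((h' s x r).mono (poly_mono _ (hqf _)))

theorem PolyG.precomp {i o : β → D} (h : PolyG i o) (f : α → β) :
    PolyG (fun a => i (f a)) (fun a => o (f a)) := by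
  obtain ⟨⟨qf, hqf⟩, cf⟩ := h
  refine ⟨⟨qf, fun x => hqf _⟩, fun A B => ?_⟩
  obtain ⟨c, p, h⟩ := cf A B
  exact ⟨c, p, fun s a r => h s (f a) r⟩

theorem PolyG.pair {i f g : α → D} (hf : PolyG i f) (hg : PolyG i g) :
    PolyG i (fun x => D.cons (f x) (g x)) := by
  obtain ⟨⟨qf, hqf⟩, cf⟩ := hf
  obtain ⟨⟨qg, hqg⟩, cg⟩ := hg
  refine ⟨⟨qf + qg + 1, fun x => ?_⟩, fun A B => ?_⟩
  · have := hqf x
    have := hqg x
    simp
    omega
  · obtain ⟨c, p, h⟩ := cf A B
    obtain ⟨c', p', h'⟩ := cg A B
    refine ⟨dupM.seq (c.seq (swapM.seq (c'.seq (swapM.seq (pushM Sy.c))))),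
      (4 * X + 7) + (p + ((2 * qf + 2 * X + 6) + (p' + ((2 * qg + 2 * qf + 6) + 1)))),
      fun s x r => ?_⟩
    have h1 := Does.dupM s (i x) r
    have h2 := h s x ((i x).enc ++ r)
    have h3 := Does.swapM s (f x) (i x) r
    have h4 := h' s x ((f x).enc ++ r)
    have h5 := Does.swapM s (g x) (f x) r
    have h6 := Does.pushM {s with m := (f x).enc ++ ((g x).enc ++ r)} Sy.c
    have e1 := hqf x
    have e2 := hqg x
    simp only [D.enc_cons, List.cons_append, List.append_assoc]
    refine ((h1.seq (h2.seq (h3.seq (h4.seq (h5.seq h6)))))).mono ?_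
    simp
    omega

theorem PolyG.nil (i : α → D) : PolyG i (fun _ => D.nil) := by
  refine ⟨⟨1, fun x => by simp⟩, fun A B => ⟨dropM.seq (pushM Sy.n), (X + 2) + 1, fun s x r => ?_⟩⟩
  have h1 := Does.dropM s (i x) r
  have h2 := Does.pushM {s with m := r} Sy.n
  simpa using h1.seq h2

/-- Constants. -/
theorem PolyG.const (i : α → D) (d : D) : PolyG i (fun _ => d) := by
  induction d with
  | nil => exact PolyG.nil i
  | cons a b ha hb => exact ha.pair hb

/-- First component. -/
def D.fst : D → D
  | .nil => .nil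
  | .cons a _ => a
/-- Second component. -/
def D.snd : D → D
  | .nil => .nil
  | .cons _ b => b

@[simp] theorem D.fst_nil : D.fst .nil = .nil := rfl
@[simp] theorem D.snd_nil : D.snd .nil = .nil := rfl
@[simp] theorem D.fst_cons (a b : D) : D.fst (.cons a b) = a := rfl
@[simp] theorem D.snd_cons (a b : D) : D.snd (.cons a b) = b := rfl

theorem PolyG.fst' : PolyG (fun x : D => x) D.fst := by
  refine ⟨⟨X, fun x => by cases x <;> simp; omega⟩, fun A B =>
    ⟨(pushM Sy.n).caseM (swapM.seq dropM), 2 * X + 2 * X + 6 + (X + 2) + 1, fun s x r => ?_⟩⟩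
  cases x with
  | nil =>
    have := Does.pushM {s with m := r} Sy.n
    simp at this
    exact (Does.caseM_nil (s := s) (r := r) this).mono (by simp)
  | cons a b =>
    have h1 := Does.swapM s a b r
    have h2 := Does.dropM s b (a.enc ++ r)
    have := (Does.caseM_cons (c₁ := pushM Sy.n) (h1.seq h2))
    simp only [D.enc_cons, D.fst_cons, List.cons_append, List.append_assoc]
    refine this.mono ?_
    simp
    omega

theorem PolyG.fst (i : α → D) : PolyG i (fun a => (i a).fst) := PolyG.fst'.precomp i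

theorem PolyG.snd' : PolyG (fun x : D => x) D.snd := by
  refine ⟨⟨X, fun x => by cases x <;> simp; omega⟩, fun A B =>
    ⟨(pushM Sy.n).caseM dropM, X + 4, fun s x r => ?_⟩⟩
  cases x with
  | nil =>
    have := Does.pushM {s with m := r} Sy.n
    simp at this
    exact (Does.caseM_nil (s := s) (r := r) this).mono (by simp)
  | cons a b =>
    have h2 := Does.dropM s a (b.enc ++ r)
    have := (Does.caseM_cons (c₁ := pushM Sy.n) (h2))
    simp only [D.enc_cons, D.snd_cons, List.cons_append, List.append_assoc]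
    refine this.mono ?_
    simp
    omega

theorem PolyG.snd (i : α → D) : PolyG i (fun a => (i a).snd) := PolyG.snd'.precomp i

/-- Branching on whether a tree is a leaf. -/
def D.ite (t x y : D) : D :=
  match t with
  | .nil => x
  | .cons _ _ => y

@[simp] theorem D.ite_nil (x y : D) : D.ite .nil x y = x := rfl
@[simp] theorem D.ite_cons (a b x y : D) : D.ite (.cons a b) x y = y := rfl

theorem PolyG.ite' {i t o : α → D} (ht : PolyG i t)
    (hf : PolyG (fun a : {a // t a = .nil} => i a.1) (fun a => o a.1))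
    (hg : PolyG (fun a : {a // t a ≠ .nil} => i a.1) (fun a => o a.1)) :
    PolyG i o := by
  obtain ⟨⟨qt, hqt⟩, ct⟩ := ht
  obtain ⟨⟨qf, hqf⟩, cf⟩ := hf
  obtain ⟨⟨qg, hqg⟩, cg⟩ := hg
  refine ⟨⟨qf + qg, fun x => ?_⟩, fun A B => ?_⟩
  · by_cases hx : t x = .nil
    · have := hqf ⟨x, hx⟩
      simp only [eval_add]
      simp only at this
      omega
    · have := hqg ⟨x, hx⟩
      simp only [eval_add]
      simp only at this
      omega
  · obtain ⟨c0, p0, h0⟩ := ct A B
    obtain ⟨c, p, h⟩ := cf A B
    obtain ⟨c', p', h'⟩ := cg A B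
    refine ⟨dupM.seq (c0.seq (c.caseM (dropM.seq (dropM.seq c')))),
      (4 * X + 7) + (p0 + (p + 2 * qt + 4 + p' + 1)), fun s x r => ?_⟩
    have e1 := hqt x
    have h1 := Does.dupM s (i x) r
    have h2 := h0 s x ((i x).enc ++ r)
    simp only [eval_add, eval_mul, eval_X, eval_ofNat, eval_one]
    by_cases hx : t x = .nil
    · have h3 := Does.caseM_nil (c₂ := dropM.seq (dropM.seq c')) (h s ⟨x, hx⟩ r)
      rw [hx] at h2
      simp only [D.enc_nil, List.cons_append, List.nil_append] at h2
      refine (h1.seq (h2.seq h3)).mono ?_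
      simp only
      omega
    · obtain ⟨a, b, hab⟩ : ∃ a b, t x = .cons a b := by
        cases ht : t x with
        | nil => exact absurd ht hx
        | cons a b => exact ⟨a, b, rfl⟩
      have h3 := Does.dropM s a (b.enc ++ ((i x).enc ++ r))
      have h4 := Does.dropM s b ((i x).enc ++ r)
      have h5 := Does.caseM_cons (c₁ := c) (h3.seq (h4.seq (h' s ⟨x, hx⟩ r)))
      rw [hab] at h2 e1
      simp only [D.enc_cons, List.cons_append, List.append_assoc] at h2
      simp only [D.size_cons] at e1
      refine (h1.seq (h2.seq h5)).mono ?_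
      simp only
      omega

theorem PolyG.congr {i o o' : α → D} (h : PolyG i o) (ho : ∀ a, o a = o' a) : PolyG i o' := by
  rwa [show o' = o from funext fun a => (ho a).symm]

theorem PolyG.ite {i t f g : α → D} (ht : PolyG i t) (hf : PolyG i f) (hg : PolyG i g) :
    PolyG i (fun x => D.ite (t x) (f x) (g x)) := by
  refine PolyG.ite' ht ((hf.precomp _).congr ?_) ((hg.precomp _).congr ?_)
  · rintro ⟨a, ha⟩
    simp [ha]
  · rintro ⟨a, ha⟩
    cases h : t a with
    | nil => exact absurd h ha
    | cons x y => simp [h]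

theorem PolyG.loop {e : σ → D} {i : α → σ} {st : σ → σ} {o : α → D}
    (hst : PolyG e (fun s => e (st s))) (N Bd : Polynomial ℕ)
    (h : ∀ a : α, ∃ n ≤ N.eval (e (i a)).size,
      (∀ j < n, ∃ x y z, e (st^[j] (i a)) = D.cons (D.cons x y) z) ∧
      (∀ j ≤ n, (e (st^[j] (i a))).size ≤ Bd.eval (e (i a)).size) ∧
      e (st^[n] (i a)) = D.cons D.nil (o a)) : PolyG (fun a => e (i a)) o := by
  obtain ⟨⟨qf, hqf⟩, cf⟩ := hst
  refine ⟨⟨Bd, fun x => ?_⟩, fun A B => ?_⟩
  · obtain ⟨n, _, _, hs, he⟩ := h x
    have := hs n le_rfl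
    rw [he] at this
    simp at this
    show _ ≤ eval (e (i x)).size Bd
    omega
  · obtain ⟨c, p, hc⟩ := cf A B
    refine ⟨c.loopM, N * (p.comp Bd + 2) + 2, fun s x r => ?_⟩
    obtain ⟨n, hn, hcons, hs, he⟩ := h x
    have key : ∀ k ≤ n, Does c.loopM (k * ((p.comp Bd).eval (e (i x)).size + 2) + 2)
        {s with m := (e (st^[n - k] (i x))).enc ++ r} {s with m := (o x).enc ++ r} := by
      intro k hk
      induction k with
      | zero =>
        simp only [Nat.sub_zero, he, D.enc_cons, D.enc_nil, List.cons_append, List.nil_append]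
        exact Does.loopM_exit.mono (by omega)
      | succ k ih =>
        have ih := ih (by omega)
        obtain ⟨a, b, d, hab⟩ := hcons (n - (k+1)) (by omega)
        have hsz := hs (n - (k+1)) (by omega)
        have h1 := hc s (st^[n - (k+1)] (i x)) r
        have e1 : n - k = (n - (k+1)) + 1 := by omega
        rw [e1, Function.iterate_succ_apply'] at ih
        rw [hab] at h1 hsz ⊢
        simp only [D.enc_cons, List.cons_append] at h1 ⊢
        refine (Does.loopM_step h1 ih).mono ?_
        have h3 := poly_mono p hsz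
        rw [eval_comp, Nat.succ_mul]
        simp only [D.size_cons] at h3 ⊢
        omega
    have := key n le_rfl
    simp only [Nat.sub_self, Function.iterate_zero, id_eq] at this
    refine this.mono ?_
    simp only [eval_add, eval_mul, eval_ofNat]
    have : n * (eval (e (i x)).size (p.comp Bd) + 2) ≤
        eval (e (i x)).size N * (eval (e (i x)).size (p.comp Bd) + 2) :=
      Nat.mul_le_mul_right _ hn
    omega

end Pool.Agent.Work.TMLib
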