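import Pool.Agent.Work.TMLib.PolyD
import Mathlib.Tactic

/-!
Polynomial-time functions between types of data represented by binary trees.
-/

namespace Pool.Agent.Work.TMLib

open Turing Polynomial

/-- Types represented by binary trees. -/
class DE (α : Type) where
  de : α → D

export DE (de)

variable {α β γ δ : Type} [DE α] [DE β] [DE γ] [DE δ]

instance : DE Unit := ⟨fun _ => .nil⟩
instance : DE Bool := ⟨fun b => cond b (.cons .nil .nil) .nil⟩

/-- Unary representation. -/
def deNat : ℕ → D
  | 0 => .nil
  | n + 1 => .cons .nil (deNat n)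
instance : DE ℕ := ⟨deNat⟩
instance : DE (α × β) := ⟨fun p => .cons (de p.1) (de p.2)⟩

/-- Representation of lists. -/
def deList : List α → D
  | [] => .nil
  | a :: l => .cons (de a) (deList l)
instance : DE (List α) := ⟨deList⟩

@[simp] theorem de_unit (u : Unit) : de u = .nil := rfl
@[simp] theorem de_false : de false = .nil := rfl
@[simp] theorem de_true : de true = .cons .nil .nil := rfl
@[simp] theorem de_zero : de (0 : ℕ) = .nil := rfl
@[simp] theorem de_succ (n : ℕ) : de (n + 1) = .cons .nil (de n) := rfl
@[simp] theorem de_pair (p : α × β) : de p = .cons (de p.1) (de p.2) := rfl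
@[simp] theorem de_nil : de ([] : List α) = .nil := rfl
@[simp] theorem de_cons (a : α) (l : List α) : de (a :: l) = .cons (de a) (de l) := rfl

/-- Size of a value. -/
def sz (a : α) : ℕ := (de a).size

@[simp] theorem sz_unit (u : Unit) : sz u = 1 := rfl
@[simp] theorem sz_false : sz false = 1 := rfl
@[simp] theorem sz_true : sz true = 3 := rfl
theorem sz_bool_le (b : Bool) : sz b ≤ 3 := by cases b <;> simp
@[simp] theorem sz_pair (p : α × β) : sz p = sz p.1 + sz p.2 + 1 := rfl
@[simp] theorem sz_nil : sz ([] : List α) = 1 := rfl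
@[simp] theorem sz_cons (a : α) (l : List α) : sz (a :: l) = sz a + sz l + 1 := rfl
@[simp] theorem sz_nat (n : ℕ) : sz n = 2 * n + 1 := by
  induction n with
  | zero => rfl
  | succ n ih =>
    have : sz (n + 1) = 1 + sz n + 1 := rfl
    omega
theorem sz_pos (a : α) : 0 < sz a := D.size_pos _

theorem sz_le_of_mem {a : α} {l : List α} (h : a ∈ l) : sz a < sz l := by
  induction l with
  | nil => simp at h
  | cons b l ih =>
    simp only [sz_cons]
    rcases List.mem_cons.1 h with rfl | h
    · omega
    · have := ih h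
      omega

theorem length_lt_sz (l : List α) : l.length < sz l := by
  induction l with
  | nil => simp
  | cons b l ih => simp; omega

theorem sz_drop_le (l : List α) (n : ℕ) : sz (l.drop n) ≤ sz l := by
  induction l generalizing n with
  | nil => simp
  | cons a l ih =>
    cases n with
    | zero => simp
    | succ n =>
      have := ih n
      simp only [List.drop_succ_cons, sz_cons]
      omega

theorem sz_append (l l' : List α) : sz (l ++ l') + 1 = sz l + sz l' := by
  induction l with
  | nil => simp; omega
  | cons a l ih => simp; omega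

theorem sz_reverse (l : List α) : sz l.reverse = sz l := by
  induction l with
  | nil => simp
  | cons a l ih =>
    have := sz_append l.reverse [a]
    simp at this ⊢
    omega

/-- Polynomial-time computable functions. -/
@[fun_prop]
def PolyF (f : α → β) : Prop := PolyG de (fun a => de (f a))

theorem PolyF.size {f : α → β} (h : PolyF f) : ∃ q : Polynomial ℕ, ∀ a, sz (f a) ≤ q.eval (sz a) :=
  h.1

@[fun_prop]
theorem PolyF.id : PolyF (fun a : α => a) := PolyG.refl _

@[fun_prop]
theorem PolyF.const (b : β) : PolyF (fun _ : α => b) := PolyG.const _ _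

@[fun_prop]
theorem PolyF.comp {f : β → γ} {g : α → β} (hf : PolyF f) (hg : PolyF g) :
    PolyF (fun a => f (g a)) := PolyG.trans hg (PolyG.precomp hf g)

theorem PolyF.of_G {f : α → β} {o : α → D} (h : PolyG de o) (ho : ∀ a, o a = de (f a)) :
    PolyF f := h.congr ho

@[fun_prop]
theorem PolyF.pair {f : α → β} {g : α → γ} (hf : PolyF f) (hg : PolyF g) :
    PolyF (fun a => (f a, g a)) := PolyG.pair hf hg

@[fun_prop]
theorem PolyF.fst {f : α → β × γ} (hf : PolyF f) : PolyF (fun a => (f a).1) :=
  PolyF.comp (f := fun p : β × γ => p.1) (PolyF.of_G (PolyG.fst _) fun _ => rfl) hf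

@[fun_prop]
theorem PolyF.snd {f : α → β × γ} (hf : PolyF f) : PolyF (fun a => (f a).2) :=
  PolyF.comp (f := fun p : β × γ => p.2) (PolyF.of_G (PolyG.snd _) fun _ => rfl) hf

@[fun_prop]
theorem PolyF.cond {c : α → Bool} {f g : α → β} (hc : PolyF c) (hf : PolyF f) (hg : PolyF g) :
    PolyF (fun a => cond (c a) (f a) (g a)) :=
  PolyF.of_G (PolyG.ite hc hg hf) (fun a => by cases h : c a <;> simp)

theorem PolyF.ite {c : α → Prop} [DecidablePred c] {f g : α → β}
    (hc : PolyF (fun a => decide (c a))) (hf : PolyF f) (hg : PolyF g) :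
    PolyF (fun a => if c a then f a else g a) := by
  have := hc.cond hf hg
  refine this.congr fun a => ?_
  by_cases h : c a <;> simp [h]

@[fun_prop]
theorem PolyF.not {f : α → Bool} (hf : PolyF f) : PolyF (fun a => !(f a)) := by
  refine (hf.cond (PolyF.const false) (PolyF.const true)).congr fun a => ?_
  simp only
  cases f a <;> rfl

@[fun_prop]
theorem PolyF.and {f g : α → Bool} (hf : PolyF f) (hg : PolyF g) :
    PolyF (fun a => f a && g a) := by
  refine (hf.cond hg (PolyF.const false)).congr fun a => ?_
  simp only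
  cases f a <;> rfl

@[fun_prop]
theorem PolyF.or {f g : α → Bool} (hf : PolyF f) (hg : PolyF g) :
    PolyF (fun a => f a || g a) := by
  refine (hf.cond (PolyF.const true) hg).congr fun a => ?_
  simp only
  cases f a <;> rfl

@[fun_prop]
theorem PolyF.succ {f : α → ℕ} (hf : PolyF f) : PolyF (fun a => f a + 1) :=
  PolyF.of_G ((PolyG.nil _).pair hf) (fun a => by simp)

@[fun_prop]
theorem PolyF.pred {f : α → ℕ} (hf : PolyF f) : PolyF (fun a => f a - 1) := by
  refine PolyF.comp (f := fun n : ℕ => n - 1) (PolyF.of_G (PolyG.snd _) fun n => ?_) hf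
  cases n <;> simp

@[fun_prop]
theorem PolyF.isZero {f : α → ℕ} (hf : PolyF f) : PolyF (fun a => decide (f a = 0)) := by
  refine PolyF.of_G (PolyG.ite hf (PolyG.const _ (de true)) (PolyG.const _ (de false)))
    fun a => ?_
  cases f a <;> simp

@[fun_prop]
theorem PolyF.cons {f : α → β} {g : α → List β} (hf : PolyF f) (hg : PolyF g) :
    PolyF (fun a => f a :: g a) := PolyG.pair hf hg

@[fun_prop]
theorem PolyF.tail {f : α → List β} (hf : PolyF f) : PolyF (fun a => (f a).tail) := by
  refine PolyF.comp (f := fun n : List β => n.tail) (PolyF.of_G (PolyG.snd _) fun n => ?_) hf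
  cases n <;> simp

@[fun_prop]
theorem PolyF.headD {f : α → List β} {g : α → β} (hf : PolyF f) (hg : PolyF g) :
    PolyF (fun a => (f a).headD (g a)) := by
  refine PolyF.of_G (PolyG.ite hf hg (PolyG.trans hf (PolyG.fst _))) fun a => ?_
  cases f a <;> simp

@[fun_prop]
theorem PolyF.isEmpty {f : α → List β} (hf : PolyF f) : PolyF (fun a => (f a).isEmpty) := by
  refine PolyF.of_G (PolyG.ite hf (PolyG.const _ (de true)) (PolyG.const _ (de false)))
    fun a => ?_
  cases f a <;> simp

/-- The step function of the loop computing a fold. -/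
def foldStep (h : α → γ → β → γ) : List β × (α × γ) → List β × (α × γ)
  | ([], s) => ([], s)
  | (b :: l, s) => (l, (s.1, h s.1 s.2 b))

omit [DE α] [DE β] [DE γ] in
theorem foldStep_iter (h : α → γ → β → γ) (l : List β) (a : α) (g : γ) (j : ℕ) (hj : j ≤ l.length) :
    (foldStep h)^[j] (l, (a, g)) = (l.drop j, (a, (l.take j).foldl (h a) g)) := by
  induction j generalizing l g with
  | zero => simp
  | succ j ih =>
    cases l with
    | nil => simp at hj
    | cons b l =>
      rw [Function.iterate_succ_apply]
      simp only [foldStep]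
      rw [ih l _ (by simpa using hj)]
      simp

theorem PolyF.foldStep {h : α → γ → β → γ} (hh : PolyF (fun p : α × γ × β => h p.1 p.2.1 p.2.2)) :
    PolyF (TMLib.foldStep h) := by
  refine PolyG.ite' (t := fun s => de s.1) (PolyG.fst _) ?_ ?_
  · refine (PolyG.refl _).congr ?_
    rintro ⟨⟨l, s⟩, hs⟩
    cases l with
    | nil => rfl
    | cons b l => simp at hs
  · have hne : ∀ a : {a : List β × (α × γ) // de a.1 ≠ .nil}, a.1.1 ≠ [] := by
      rintro ⟨⟨l, s⟩, hs⟩ h
      simp only at h
      subst h
      simp at hs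
    set i : {a : List β × (α × γ) // de a.1 ≠ .nil} → D := fun a => de a.1 with hi
    have h1 : PolyG i (fun a => (i a).snd.fst) := (PolyG.snd _).trans (PolyG.fst _)
    have h2 : PolyG i (fun a => (i a).snd.snd) := (PolyG.snd _).trans (PolyG.snd _)
    have h3 : PolyG i (fun a => (i a).fst.fst) := (PolyG.fst _).trans (PolyG.fst _)
    have h4 : PolyG i (fun a => (i a).fst.snd) := (PolyG.fst _).trans (PolyG.snd _)
    have h5 := hh.precomp (fun a : {a : List β × (α × γ) // de a.1 ≠ .nil} =>
      (a.1.2.1, a.1.2.2, a.1.1.head (hne a)))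
    have h6 : PolyG i (fun a => de (a.1.2.1, a.1.2.2, a.1.1.head (hne a))) := by
      refine (h1.pair (h2.pair h3)).congr ?_
      rintro ⟨⟨l, s⟩, hs⟩
      cases l with
      | nil => simp at hs
      | cons b l => rfl
    refine (h4.pair (h1.pair (h6.trans h5))).congr ?_
    rintro ⟨⟨l, s⟩, hs⟩
    cases l with
    | nil => simp at hs
    | cons b l => rfl

/-- Closure under folds of polynomially bounded size. -/
theorem PolyF.foldl {l : α → List β} {g : α → γ} {h : α → γ → β → γ}
    (hl : PolyF l) (hg : PolyF g) (hh : PolyF (fun p : α × γ × β => h p.1 p.2.1 p.2.2))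
    (Q : Polynomial ℕ)
    (hQ : ∀ a, ∀ j ≤ (l a).length, sz (((l a).take j).foldl (h a) (g a)) ≤ Q.eval (sz a)) :
    PolyF (fun a => (l a).foldl (h a) (g a)) := by
  have h1 : PolyF (fun a => (l a, (a, g a))) := hl.pair (PolyF.id.pair hg)
  have h2 : PolyG (fun a => de (l a, (a, g a))) (fun a => de (a, (l a).foldl (h a) (g a))) := by
    refine PolyG.loop (i := fun a => (l a, (a, g a))) (PolyF.foldStep hh) X (2 * X + Q + 2) ?_
    intro a
    have hE : (de (l a, (a, g a))).size = sz (l a) + (sz a + sz (g a) + 1) + 1 := rfl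
    refine ⟨(l a).length, ?_, ?_, ?_, ?_⟩
    · have := length_lt_sz (l a)
      rw [hE]
      simp
      omega
    · intro j hj
      rw [foldStep_iter h (l a) a (g a) j (by omega)]
      cases h' : (l a).drop j with
      | nil => simp at h'; omega
      | cons b t => exact ⟨_, _, _, rfl⟩
    · intro j hj
      rw [foldStep_iter h (l a) a (g a) j hj]
      have e1 : (de ((l a).drop j, (a, ((l a).take j).foldl (h a) (g a)))).size =
        sz ((l a).drop j) + (sz a + sz (((l a).take j).foldl (h a) (g a)) + 1) + 1 := rfl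
      have e2 := sz_drop_le (l a) j
      have e3 := hQ a j hj
      have e4 : Q.eval (sz a) ≤ Q.eval (de (l a, (a, g a))).size := poly_mono _ (by rw [hE]; omega)
      rw [e1]
      simp only [eval_add, eval_mul, eval_ofNat, eval_X]
      rw [hE] at e4 ⊢
      omega
    · rw [foldStep_iter h (l a) a (g a) _ le_rfl]
      simp
  exact (h1.trans h2).trans ((PolyG.snd _).congr fun a => rfl)

/-- Closure under folds of additive growth. -/
theorem PolyF.foldl_add {l : α → List β} {g : α → γ} {h : α → γ → β → γ}
    (hl : PolyF l) (hg : PolyF g) (hh : PolyF (fun p : α × γ × β => h p.1 p.2.1 p.2.2))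
    (K : Polynomial ℕ) (hK : ∀ a s, ∀ b ∈ l a, sz (h a s b) ≤ sz s + K.eval (sz a)) :
    PolyF (fun a => (l a).foldl (h a) (g a)) := by
  obtain ⟨ql, hql⟩ := hl.size
  obtain ⟨qg, hqg⟩ := hg.size
  refine PolyF.foldl hl hg hh (qg + ql * K) ?_
  intro a j hj
  have key : ∀ (t : List β) (s : γ), (∀ b ∈ t, b ∈ l a) →
      sz (t.foldl (h a) s) ≤ sz s + t.length * K.eval (sz a) := by
    intro t
    induction t with
    | nil => intro s _; simp
    | cons b t ih =>
      intro s ht
      have h1 := ih (h a s b) (fun c hc => ht c (by simp [hc]))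
      have h2 := hK a s b (ht b (by simp))
      simp only [List.foldl_cons, List.length_cons]
      rw [Nat.succ_mul]
      omega
  have h1 := key ((l a).take j) (g a) (fun b hb => List.mem_of_mem_take hb)
  have h2 := hqg a
  have h3 : ((l a).take j).length ≤ ql.eval (sz a) := by
    have := length_lt_sz (l a)
    have := hql a
    simp
    omega
  have h4 : ((l a).take j).length * K.eval (sz a) ≤ ql.eval (sz a) * K.eval (sz a) :=
    Nat.mul_le_mul_right _ h3
  simp only [eval_add, eval_mul]
  omega

theorem PolyF.toG {f : α → β} (h : PolyF f) : PolyG de (fun a => de (f a)) := h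

attribute [irreducible] PolyF

end Pool.Agent.Work.TMLib
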